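import Mathlib

/-!
Symmetric sub-Markovian semigroups, the generator on `L¹`, the quadratic form on `L²`
and the form-bound of a potential.
-/

open MeasureTheory Filter Topology
open scoped ENNReal NNReal InnerProductSpace

namespace Pool.Agent.Lib.MP_62a15f_an

section abstract

variable {E : Type} [NormedAddCommGroup E]

/-- Bounded operators on a complex normed space. -/
abbrev Op (E : Type) [NormedAddCommGroup E] [NormedSpace ℂ E] : Type := E →L[ℂ] E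

/-- The value of an operator at a vector. -/
def Op.at [NormedSpace ℂ E] (T : Op E) (f : E) : E := T f

/-- The semigroup law. -/
def SemigroupLaw [NormedSpace ℂ E] (U : ℝ≥0 → Op E) : Prop :=
  ∀ f : E, (U 0).at f = f ∧ ∀ s t : ℝ≥0, (U (s + t)).at f = (U s).at ((U t).at f)

/-- Contractivity. -/
def Contractive [NormedSpace ℂ E] (U : ℝ≥0 → Op E) : Prop :=
  ∀ (t : ℝ≥0) (f : E), ‖(U t).at f‖ ≤ ‖f‖

/-- Strong continuity. -/
def StronglyContinuous [NormedSpace ℂ E] (U : ℝ≥0 → Op E) : Prop :=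
  ∀ f : E, Continuous fun t => (U t).at f

/-- Self-adjointness. -/
def Symmetric [InnerProductSpace ℂ E] (U : ℝ≥0 → Op E) : Prop :=
  ∀ (t : ℝ≥0) (f g : E), ⟪(U t).at f, g⟫_ℂ = ⟪f, (U t).at g⟫_ℂ

/-- `f` lies in the domain of the generator `T` of `U` and `T f = g`. -/
def IsGen [NormedSpace ℂ E] (U : ℝ≥0 → Op E) (f g : E) : Prop :=
  Tendsto (fun t : ℝ≥0 => ((t : ℝ) : ℂ)⁻¹ • ((U t).at f - f)) (𝓝[>] 0) (𝓝 g)

/-- `f` lies in the domain of the generator `T` of `U` and `(l - T) f = h`. -/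
def IsShiftedGen [NormedSpace ℂ E] (U : ℝ≥0 → Op E) (l : ℝ) (f h : E) : Prop :=
  IsGen U f ((l : ℂ) • f - h)

/-- The spectral radius of a bounded operator. -/
noncomputable def specRad [NormedSpace ℂ E] (A : Op E) : ℝ≥0∞ := spectralRadius ℂ A

/-- The closed form of a self-adjoint contraction semigroup,
`q φ = sup_{t > 0} t⁻¹ ⟨φ, φ - U t φ⟩`; it is finite exactly on the domain of the square root of
minus the generator, where it is the squared norm of the image. -/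
noncomputable def form [InnerProductSpace ℂ E] (U : ℝ≥0 → Op E) (φ : E) : ℝ≥0∞ :=
  ⨆ (t : ℝ≥0) (_ : 0 < t), ENNReal.ofReal ((t : ℝ)⁻¹ * (⟪φ, φ - (U t).at φ⟫_ℂ).re)

end abstract

variable {X : Type} [MeasurableSpace X]

/-- Complex `L^p`. -/
abbrev L (μ : Measure X) (p : ℝ≥0∞) : Type := Lp ℂ p μ

/-- Families of operators `U p t` on `L^p`, `1 ≤ p ≤ ∞`, `t ≥ 0`. -/
abbrev Family (μ : Measure X) : Type := ∀ (p : ℝ≥0∞) [Fact (1 ≤ p)], ℝ≥0 → Op (L μ p)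

variable {μ : Measure X}

/-- The function representing an element of `L^p`. -/
noncomputable def L.fn {p : ℝ≥0∞} (f : L μ p) : X → ℂ := f

/-- The operators on different `L^p` agree on common functions. -/
def Consistent (U : Family μ) : Prop :=
  ∀ (p q : ℝ≥0∞) [Fact (1 ≤ p)] [Fact (1 ≤ q)] (t : ℝ≥0) (f : L μ p) (g : L μ q),
    f.fn =ᵐ[μ] g.fn → ((U p t).at f).fn =ᵐ[μ] ((U q t).at g).fn

/-- Almost everywhere real and nonnegative. -/
def AENonneg (μ : Measure X) (f : X → ℂ) : Prop := ∀ᵐ x ∂μ, 0 ≤ (f x).re ∧ (f x).im = 0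

/-- Positivity. -/
def Positive (U : Family μ) : Prop :=
  ∀ (p : ℝ≥0∞) [Fact (1 ≤ p)] (t : ℝ≥0) (f : L μ p),
    AENonneg μ f.fn → AENonneg μ ((U p t).at f).fn

/-- A symmetric sub-Markovian semigroup. -/
def IsSymmSubMarkov (U : Family μ) : Prop :=
  Consistent U ∧ Positive U ∧ (∀ (p : ℝ≥0∞) [Fact (1 ≤ p)], SemigroupLaw (U p)) ∧
    Contractive (U 1) ∧ Contractive (U ∞) ∧
    (∀ (p : ℝ≥0∞) [Fact (1 ≤ p)], p ≠ ∞ → StronglyContinuous (U p)) ∧ Symmetric (U 2)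

/-- `V` is `T`-bounded in `L¹`: `D(T) ⊆ D(V)`. -/
def IsGenBounded (U : Family μ) (V : X → ℝ) : Prop :=
  ∀ f g : L μ 1, IsGen (U 1) f g → Integrable (fun x => (V x : ℂ) * f.fn x) μ

/-- `A = V (l - T)⁻¹`: `l - T` maps `D(T)` onto `L¹`, and `A ((l - T) f) = V f` on `D(T)`. -/
def IsPotentialResolvent (U : Family μ) (V : X → ℝ) (l : ℝ) (A : Op (L μ 1)) : Prop :=
  (∀ h : L μ 1, ∃ f : L μ 1, IsShiftedGen (U 1) l f h) ∧
    ∀ f h : L μ 1, IsShiftedGen (U 1) l f h → (A.at h).fn =ᵐ[μ] fun x => (V x : ℂ) * f.fn x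

/-- The `L²` form-bound of `V`. -/
noncomputable def formBound (U : Family μ) (V : X → ℝ) : ℝ≥0∞ :=
  ⨅ (a : ℝ≥0) (_ : ∃ b : ℝ≥0, ∀ φ : L μ 2, form (U 2) φ < ∞ →
    ∫⁻ x, ENNReal.ofReal (V x) * ‖φ.fn x‖ₑ ^ 2 ∂μ ≤
      a * form (U 2) φ + b * ∫⁻ x, ‖φ.fn x‖ₑ ^ 2 ∂μ), (a : ℝ≥0∞)

/-- On the measure space there are a symmetric sub-Markovian semigroup and a potential `V ≥ 0`,
`T`-bounded in `L¹`, with `β < δ`. -/
def HasStrictGap (μ : Measure X) : Prop :=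
  ∃ (U : Family μ) (V : X → ℝ),
    IsSymmSubMarkov U ∧ Measurable V ∧ (∀ x, 0 ≤ V x) ∧ IsGenBounded U V ∧
    ∃ A : ℝ → Op (L μ 1), (∀ l : ℝ, 0 < l → IsPotentialResolvent U V l (A l)) ∧
      ∃ δ : ℝ≥0∞, Tendsto (fun l : ℝ => specRad (A l)) atTop (𝓝 δ) ∧ formBound U V < δ

end Pool.Agent.Lib.MP_62a15f_an
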