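import Pool.Agent.Lib.MP_62a15f_an.Form

/-!
In every dimension there are a symmetric sub-Markovian semigroup and a potential, bounded with
respect to the generator in `L¹`, whose form-bound is strictly smaller than the limit of the
`L¹` spectral radii.
-/

open MeasureTheory Filter Topology
open scoped ENNReal

namespace Pool.Agent.Lib.MP_62a15f_an

theorem dilation_example (d : ℕ) (hd : 1 ≤ d) :
    HasStrictGap (volume : Measure (EuclideanSpace ℝ (Fin d))) := by
  have hr : 0 < Module.finrank ℝ (EuclideanSpace ℝ (Fin d)) := by simp; omega
  have : Nontrivial (EuclideanSpace ℝ (Fin d)) := Module.finrank_pos_iff.1 hr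
  refine ⟨S volume, c, isSymmSubMarkov_S volume, measurable_c,
    fun x => zero_le_one.trans (one_le_c x), isGenBounded volume,
    A volume, fun l hl => isPotentialResolvent volume hl, 1, ?_, formBound_lt volume hr⟩
  refine tendsto_const_nhds.congr' ((eventually_gt_atTop 0).mono fun l hl => ?_)
  exact (spectralRadius_A volume hl).symm

end Pool.Agent.Lib.MP_62a15f_an
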