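import Pool.Agent.Lib.MP_62a15f_an.Generator

/-!
The form-bound of the potential.
-/

open MeasureTheory Filter Topology
open scoped ENNReal NNReal InnerProductSpace

namespace Pool.Agent.Lib.MP_62a15f_an

variable {E : Type} [NormedAddCommGroup E] [NormedSpace ℝ E] [FiniteDimensional ℝ E]
  [MeasurableSpace E] [BorelSpace E] (μ : Measure E) [μ.IsAddHaarMeasure]

omit [NormedSpace ℝ E] [FiniteDimensional ℝ E] [μ.IsAddHaarMeasure] in
lemma inner_M {g : ℝ → ℝ} (hg : Good g) (φ : Lp ℂ 2 μ) :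
    Integrable (fun x => g (c x) * ‖φ x‖ ^ 2) μ ∧
      (⟪φ, M μ 2 g φ⟫_ℂ).re = ∫ x, g (c x) * ‖φ x‖ ^ 2 ∂μ := by
  have e : (fun x => RCLike.re ⟪φ x, M μ 2 g φ x⟫_ℂ) =ᵐ[μ] fun x => g (c x) * ‖φ x‖ ^ 2 :=
    (coe_M μ hg φ).mono fun x hx => by
      simp only [hx]
      rw [← smul_eq_mul, inner_smul_right, inner_self_eq_norm_sq_to_K]
      change ((g (c x) : ℂ) * ((‖φ x‖ : ℝ) : ℂ) ^ 2).re = _
      norm_cast
  have hi := L2.integrable_inner (𝕜 := ℂ) φ (M μ 2 g φ)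
  refine ⟨hi.re.congr e, ?_⟩
  rw [← integral_congr_ae e, integral_re hi, L2.inner_def]
  rfl

lemma re_inner_term_le (t : ℝ≥0) (k : ℕ) (φ : Lp ℂ 2 μ) :
    (⟪φ, term μ 2 t k φ⟫_ℂ).re ≤ rho E ^ k * (⟪φ, M μ 2 (w k t) φ⟫_ℂ).re := by
  have hg : Good fun s => Real.sqrt (w k t s) :=
    ⟨(measurable_w k t).sqrt, 1, fun s hs => by
      rw [abs_of_nonneg (Real.sqrt_nonneg _), Real.sqrt_le_one]
      exact (le_abs_self _).trans ((abs_w_le k t s hs).trans
        (pow_le_one₀ (by norm_num) (by norm_num)))⟩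
  set R := M μ 2 fun s => Real.sqrt (w k t s) with hR
  have e : M μ 2 (w k t) = R * R := by
    rw [hR, M_mul μ hg hg]
    exact M_congr μ (good_w k t) (hg.mul hg) fun s hs =>
      (Real.mul_self_sqrt (w_nonneg k (mul_nonneg t.2 (by linarith)))).symm
  have sym : ∀ a b, ⟪a, R b⟫_ℂ = ⟪R a, b⟫_ℂ := fun a b =>
    (ContinuousLinearMap.isSelfAdjoint_iff_isSymmetric.1 (M_selfAdjoint μ hg) a b).symm
  have c1 : R * P μ 2 ^ k = P μ 2 ^ k * R := ((P_M_comm μ hg).pow_left k).symm.eq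
  rw [term, e, mul_assoc, c1, mul_apply_eq_comp, mul_apply_eq_comp, mul_apply_eq_comp, sym, sym,
    inner_self_eq_norm_sq_to_K]
  have b : ‖(P μ 2 ^ k) (R φ)‖ ≤ rho E ^ k * ‖R φ‖ := ((P μ 2 ^ k).le_opNorm _).trans
    (mul_le_mul_of_nonneg_right (norm_P_pow_le μ (norm_P_two μ) k) (norm_nonneg _))
  refine (Complex.re_le_norm _).trans ((norm_inner_le_norm _ _).trans ?_)
  have : ((‖R φ‖ : ℂ) ^ 2).re = ‖R φ‖ ^ 2 := by norm_cast
  erw [this]
  nlinarith [norm_nonneg (R φ)]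

lemma good_exp (t : ℝ≥0) {a : ℝ} (ha : 0 ≤ a) : Good fun s => Real.exp (-a * (t * s)) :=
  ⟨by fun_prop, 1, fun s hs => by
    rw [abs_of_pos (Real.exp_pos _), Real.exp_le_one_iff]
    have : 0 ≤ a * (t * s) := mul_nonneg ha (mul_nonneg t.2 (by linarith))
    linarith⟩

lemma re_inner_U_le (h2 : rho E ≤ 2) (t : ℝ≥0) (φ : Lp ℂ 2 μ) :
    (⟪φ, U μ 2 t φ⟫_ℂ).re ≤ ∫ x, Real.exp (-(2 - rho E) * (t * c x)) * ‖φ x‖ ^ 2 ∂μ := by
  have h1 : Tendsto (fun n => (⟪φ, ∑ k ∈ Finset.range n, term μ 2 t k φ⟫_ℂ).re) atTop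
      (𝓝 (⟪φ, U μ 2 t φ⟫_ℂ).re) :=
    (Complex.continuous_re.tendsto _).comp
      (tendsto_const_nhds.inner (hasSum_U_apply μ t φ).tendsto_sum_nat)
  refine le_of_tendsto' h1 fun n => ?_
  rw [inner_sum, Complex.re_sum]
  refine (Finset.sum_le_sum fun k _ => re_inner_term_le μ t k φ).trans ?_
  simp only [(inner_M μ (good_w _ t) φ).2, ← integral_const_mul]
  have hi : ∀ k, Integrable (fun x => rho E ^ k * (w k t (c x) * ‖φ x‖ ^ 2)) μ := fun k =>
    (inner_M μ (good_w k t) φ).1.const_mul _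
  rw [← integral_finsetSum _ fun k _ => hi k]
  refine integral_mono (integrable_finsetSum _ fun k _ => hi k)
    (inner_M μ (good_exp t (by linarith)) φ).1 fun x => ?_
  simp only [← mul_assoc (rho E ^ _), ← Finset.sum_mul]
  exact mul_le_mul_of_nonneg_right
    (sum_w_le n (mul_nonneg t.2 (by linarith [one_le_c x])) (rho_nonneg E)) (by positivity)

lemma lintegral_le_form (h2 : rho E ≤ 2) {t : ℝ≥0} (ht : 0 < t) (φ : Lp ℂ 2 μ) :
    ∫⁻ x, ENNReal.ofReal ((t : ℝ)⁻¹ * (1 - Real.exp (-(2 - rho E) * (t * c x))) * ‖φ x‖ ^ 2) ∂μ ≤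
      form (S μ 2) φ := by
  refine le_trans ?_ (le_iSup₂_of_le t ht le_rfl)
  have i1 := inner_M μ (good_const 1) φ
  have i2 := (inner_M μ (good_exp t (show 0 ≤ 2 - rho E by linarith)) φ).1
  rw [M_const] at i1
  simp only [Complex.ofReal_one, one_smul, one_apply_eq_self, one_mul] at i1
  have e : ∀ x, (t : ℝ)⁻¹ * (1 - Real.exp (-(2 - rho E) * (t * c x))) * ‖φ x‖ ^ 2 =
      (t : ℝ)⁻¹ * (‖φ x‖ ^ 2 - Real.exp (-(2 - rho E) * (t * c x)) * ‖φ x‖ ^ 2) := fun x => by ring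
  rw [← ofReal_integral_eq_lintegral_ofReal]
  · refine ENNReal.ofReal_le_ofReal ?_
    simp only [e]
    rw [integral_const_mul, integral_sub i1.1 i2, inner_sub_right, Complex.sub_re, i1.2]
    exact mul_le_mul_of_nonneg_left (sub_le_sub_left (re_inner_U_le μ h2 t φ) _) (by positivity)
  · simp only [e]
    exact (i1.1.sub i2).const_mul _
  · refine Eventually.of_forall fun x => mul_nonneg (mul_nonneg (by positivity) ?_) (by positivity)
    rw [sub_nonneg, Real.exp_le_one_iff]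
    have : 0 ≤ (2 - rho E) * (t * c x) :=
      mul_nonneg (by linarith) (mul_nonneg t.2 (by linarith [one_le_c x]))
    linarith

lemma form_ge (h2 : rho E ≤ 2) (φ : Lp ℂ 2 μ) :
    ∫⁻ x, ENNReal.ofReal ((2 - rho E) * c x * ‖φ x‖ ^ 2) ∂μ ≤ form (S μ 2) φ := by
  have h2' : Tendsto (fun t : ℝ≥0 => (t : ℝ)) (𝓝[>] 0) (𝓝[>] 0) :=
    tendsto_nhdsWithin_iff.2 ⟨NNReal.continuous_coe.continuousAt.tendsto.mono_left
      nhdsWithin_le_nhds, eventually_nhdsWithin_of_forall fun t ht => ht⟩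
  have lim : ∀ x, Tendsto (fun t : ℝ≥0 => ENNReal.ofReal
      ((t : ℝ)⁻¹ * (1 - Real.exp (-(2 - rho E) * (t * c x))) * ‖φ x‖ ^ 2)) (𝓝[>] 0)
      (𝓝 (ENNReal.ofReal ((2 - rho E) * c x * ‖φ x‖ ^ 2))) := by
    intro x
    refine ENNReal.tendsto_ofReal (Tendsto.mul_const _ ?_)
    have d : HasDerivAt (fun t : ℝ => 1 - Real.exp (-(2 - rho E) * (t * c x)))
        ((2 - rho E) * c x) 0 := by
      have := (((hasDerivAt_id (0 : ℝ)).mul_const (c x)).const_mul (-(2 - rho E))).exp.const_sub 1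
      simpa [← neg_mul] using this
    refine (d.tendsto_slope_zero_right.comp h2').congr fun t => ?_
    simp
  have hm : ∀ t : ℝ≥0, AEMeasurable (fun x => ENNReal.ofReal
      ((t : ℝ)⁻¹ * (1 - Real.exp (-(2 - rho E) * (t * c x))) * ‖φ x‖ ^ 2)) μ := by
    intro t
    have h1 : AEMeasurable (fun x => ‖φ x‖) μ := (Lp.aestronglyMeasurable φ).norm.aemeasurable
    have h3 : Measurable (c : E → ℝ) := measurable_c
    fun_prop
  have := lintegral_liminf_le' (u := 𝓝[>] (0 : ℝ≥0)) hm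
  simp only [(lim _).liminf_eq] at this
  refine this.trans (liminf_le_of_frequently_le' (Eventually.frequently ?_))
  exact eventually_nhdsWithin_of_forall fun t ht => lintegral_le_form μ h2 ht φ

theorem formBound_lt (h : 0 < Module.finrank ℝ E) : formBound (S μ) c < 1 := by
  have h1 := rho_lt E h
  have hk : 0 < 2 - rho E := by linarith
  let a : ℝ≥0 := ⟨(2 - rho E)⁻¹, by positivity⟩
  refine lt_of_le_of_lt (b := (a : ℝ≥0∞)) (iInf₂_le a ⟨0, fun φ _ => ?_⟩) ?_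
  swap
  · rw [ENNReal.coe_zero, zero_mul, add_zero]
    refine le_trans ?_ (mul_le_mul_right (form_ge μ (by linarith) φ) _)
    rw [← lintegral_const_mul' _ _ ENNReal.coe_ne_top]
    refine lintegral_mono fun x => le_of_eq ?_
    have hc : 0 ≤ c x := by linarith [one_le_c x]
    simp only [L.fn]
    rw [← ofReal_norm, ← ENNReal.ofReal_pow (norm_nonneg _), ← ENNReal.ofReal_mul hc,
      ← ENNReal.ofReal_coe_nnreal, ← ENNReal.ofReal_mul a.coe_nonneg]
    congr 1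
    change _ = (2 - rho E)⁻¹ * _
    field_simp
  · rw [ENNReal.coe_lt_one_iff]
    change (2 - rho E)⁻¹ < 1
    exact inv_lt_one_of_one_lt₀ (by linarith)

end Pool.Agent.Lib.MP_62a15f_an
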