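import Pool.Agent.Lib.MP_62a15f_an.Semigroup

/-!
The generator on `L¹`, the operator `V (l - T)⁻¹` and its spectral radius.
-/

open MeasureTheory Filter Topology
open scoped ENNReal NNReal InnerProductSpace

namespace Pool.Agent.Lib.MP_62a15f_an

section general

variable {F : Type} [NormedAddCommGroup F] [NormedSpace ℂ F]

lemma IsGen.sub {S : ℝ≥0 → Op F} {f g f' g' : F} (h : IsGen S f g)
    (h' : IsGen S f' g') : IsGen S (f - f') (g - g') := by
  refine (Tendsto.sub h h').congr fun t => ?_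
  simp only [Op.at]
  rw [← smul_sub, map_sub]
  congr 1
  abel

lemma IsGen.eq_zero {S : ℝ≥0 → Op F} (hS : Contractive S) {u : F} {l : ℝ} (hl : 0 < l)
    (h : IsGen S u ((l : ℂ) • u)) : u = 0 := by
  have h1 := (h.sub_const ((l : ℂ) • u)).norm
  rw [sub_self, norm_zero] at h1
  have h2 : l * ‖u‖ ≤ 0 := by
    refine ge_of_tendsto h1 (eventually_nhdsWithin_of_forall fun t ht => ?_)
    have ht' : (0 : ℝ) < t := ht
    set z := ((t : ℝ) : ℂ)⁻¹ • ((S t).at u - u) - (l : ℂ) • u with hz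
    have e : ((1 + t * l : ℝ) : ℂ) • u = (S t).at u - ((t : ℝ) : ℂ) • z := by
      have : ((t : ℝ) : ℂ) ≠ 0 := by exact_mod_cast ht'.ne'
      rw [hz, smul_sub, smul_smul, mul_inv_cancel₀ this, one_smul, smul_smul]
      push_cast
      rw [add_smul, one_smul]
      abel
    have b : ‖(S t).at u‖ ≤ ‖u‖ := hS t u
    have e2 := norm_sub_le ((S t).at u) (((t : ℝ) : ℂ) • z)
    rw [← e, norm_smul, norm_smul, Complex.norm_real, Complex.norm_real,
      Real.norm_of_nonneg ht'.le, Real.norm_of_nonneg (by positivity)] at e2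
    exact le_of_mul_le_mul_left (by nlinarith) ht'
  exact norm_le_zero_iff.1 (by nlinarith [norm_nonneg u])

end general

variable {E : Type} [NormedAddCommGroup E] [NormedSpace ℝ E] [FiniteDimensional ℝ E]
  [MeasurableSpace E] [BorelSpace E] (μ : Measure E) [μ.IsAddHaarMeasure]

/-- symbol of the first difference quotient -/
noncomputable def v0 (t s : ℝ) : ℝ := t⁻¹ * (Real.exp (-2 * (t * s)) - 1) / s

/-- symbols of the other difference quotients -/
noncomputable def v1 (k : ℕ) (t s : ℝ) : ℝ := w k t s / (k + 1)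

lemma measurable_v0 (t : ℝ) : Measurable (v0 t) := by
  unfold v0
  fun_prop

lemma abs_v0_le {t : ℝ} (ht : 0 < t) (s : ℝ) (hs : 1 ≤ s) : |v0 t s| ≤ 2 := by
  have h1 := Real.one_sub_le_exp_neg (2 * (t * s))
  have h2 : Real.exp (-(2 * (t * s))) ≤ 1 := Real.exp_le_one_iff.2 (by nlinarith)
  have hs0 : 0 < s := by linarith
  have e : v0 t s = (Real.exp (-(2 * (t * s))) - 1) / (t * s) := by
    unfold v0
    rw [neg_mul]
    field_simp
  rw [e, abs_le, le_div_iff₀ (by positivity), div_le_iff₀ (by positivity)]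
  constructor <;> nlinarith [mul_pos ht hs0]

lemma v0_tendsto (s : ℝ) (hs : 1 ≤ s) :
    Tendsto (fun t : ℝ≥0 => v0 t s) (𝓝[>] 0) (𝓝 (-2)) := by
  have hs0 : s ≠ 0 := by linarith
  have d : HasDerivAt (fun t : ℝ => Real.exp (-2 * (t * s))) (-2 * s) 0 := by
    have := (((hasDerivAt_id (0 : ℝ)).mul_const s).const_mul (-2)).exp
    simpa using this
  have h1 := d.tendsto_slope_zero_right.div_const s
  have h2 : Tendsto (fun t : ℝ≥0 => (t : ℝ)) (𝓝[>] 0) (𝓝[>] 0) :=
    tendsto_nhdsWithin_iff.2 ⟨NNReal.continuous_coe.continuousAt.tendsto.mono_left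
      nhdsWithin_le_nhds, eventually_nhdsWithin_of_forall fun t ht => ht⟩
  have h3 := h1.comp h2
  rw [mul_div_cancel_right₀ _ hs0] at h3
  refine h3.congr fun t => ?_
  simp [v0]

lemma measurable_v1 (k : ℕ) (t : ℝ) : Measurable (v1 k t) := (measurable_w k t).div_const _

lemma abs_v1_le (k : ℕ) (t : ℝ≥0) (s : ℝ) (hs : 1 ≤ s) : |v1 k t s| ≤ (1 / 2) ^ k := by
  unfold v1
  rw [abs_div, abs_of_pos (show (0 : ℝ) < k + 1 by positivity)]
  exact (div_le_self (abs_nonneg _) (by simp)).trans (abs_w_le k t s hs)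

lemma isGen_of_mul {f u : Lp ℂ 1 μ} (h : u =ᵐ[μ] fun x => (c x : ℂ) * f x) :
    IsGen (S μ 1) f (P μ 1 u - (2 : ℂ) • u) := by
  have t0 := M_tendsto μ (p := 1) (l := 𝓝[>] (0 : ℝ≥0)) ENNReal.one_ne_top
    (g := fun t : ℝ≥0 => v0 t) (g0 := fun _ => -2) (fun t => measurable_v0 t) measurable_const 2
    (eventually_nhdsWithin_of_forall fun t ht => abs_v0_le ht) (fun _ _ => by norm_num)
    v0_tendsto u
  have nb : ∀ (t : ℝ≥0) k, ‖M μ 1 (v1 k t) ((P μ 1 ^ (k + 1)) u)‖ ≤ (1 / 2) ^ k * ‖u‖ := by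
    intro t k
    refine ((M μ 1 _).le_opNorm _).trans (mul_le_mul
      (norm_M_le μ (measurable_v1 k t) (abs_v1_le k t)) ?_ (norm_nonneg _) (by positivity))
    refine ((P μ 1 ^ (k + 1)).le_opNorm _).trans (mul_le_of_le_one_left (norm_nonneg _) ?_)
    simpa using norm_P_pow_le μ (norm_P_one μ) (k + 1)
  have t1 : Tendsto (fun t : ℝ≥0 => ∑' k, M μ 1 (v1 k t) ((P μ 1 ^ (k + 1)) u)) (𝓝[>] 0)
      (𝓝 (∑' k, M μ 1 (v1 k (0 : ℝ≥0)) ((P μ 1 ^ (k + 1)) u))) := by
    refine tendsto_tsum_of_dominated_convergence (bound := fun k => (1 / 2) ^ k * ‖u‖)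
      (summable_geometric_two.mul_right _) (fun k => ?_) (Eventually.of_forall nb)
    refine M_tendsto μ ENNReal.one_ne_top (fun t : ℝ≥0 => measurable_v1 k t) (measurable_v1 k _)
      ((1 / 2) ^ k) (Eventually.of_forall (abs_v1_le k)) (abs_v1_le k 0) (fun s _ => ?_) _
    exact ((((continuous_w k).comp (Continuous.prodMk_left s)).comp
      NNReal.continuous_coe).div_const _).continuousAt.tendsto.mono_left nhdsWithin_le_nhds
  have e1 : ∑' k, M μ 1 (v1 k (0 : ℝ≥0)) ((P μ 1 ^ (k + 1)) u) = P μ 1 u := by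
    rw [tsum_eq_single 0]
    · have : v1 0 (0 : ℝ≥0) = fun _ => 1 := by ext s; simp [v1, w]
      rw [this, M_const]
      simp
    · intro k hk
      have : v1 k (0 : ℝ≥0) = fun _ => 0 := by ext s; simp [v1, w, hk]
      rw [this, M_const]
      simp
  have t2 := t0.add t1
  have e2 : M μ 1 (fun _ => -2) u + P μ 1 u = P μ 1 u - (2 : ℂ) • u := by
    rw [M_const, smul_apply, one_apply_eq_self, Complex.ofReal_neg, Complex.ofReal_ofNat, neg_smul]
    abel
  rw [e1, e2] at t2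
  refine t2.congr' (eventually_nhdsWithin_of_forall fun t ht => ?_)
  have ht' : (0 : ℝ) < t := ht
  have htc : ((t : ℝ) : ℂ) ≠ 0 := by exact_mod_cast ht'.ne'
  have hs := hasSum_U_apply μ t f
  have e3 : (S μ 1 t).at f - f = (term μ 1 t 0 f - f) + ∑' k, term μ 1 t (k + 1) f := by
    change U μ 1 t f - f = _
    rw [← hs.tsum_eq, hs.summable.tsum_eq_zero_add]
    abel
  simp only
  rw [e3, smul_add, ← ((summable_nat_add_iff 1).2 hs.summable).tsum_const_smul]
  congr 1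
  · ext1
    filter_upwards [coe_M μ ⟨measurable_v0 t, 2, abs_v0_le ht'⟩ u, h,
      Lp.coeFn_smul ((t : ℝ) : ℂ)⁻¹ (term μ 1 t 0 f - f), Lp.coeFn_sub (term μ 1 t 0 f) f,
      coe_M μ (good_w 0 t) f] with x h1 h2 h3 h4 h5
    have hc : (c x : ℂ) ≠ 0 := by exact_mod_cast (zero_lt_one.trans_le (one_le_c x)).ne'
    rw [h1, h2, h3, Pi.smul_apply, h4, Pi.sub_apply, term, pow_zero, mul_one, h5]
    simp only [v0, w, pow_zero, Nat.factorial_zero, smul_eq_mul]
    push_cast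
    field_simp
  · refine tsum_congr fun k => ?_
    ext1
    filter_upwards [coe_M μ ⟨measurable_v1 k t, _, abs_v1_le k t⟩ ((P μ 1 ^ (k + 1)) u),
      P_pow_mul_c μ h (k + 1), Lp.coeFn_smul ((t : ℝ) : ℂ)⁻¹ (term μ 1 t (k + 1) f),
      coe_M μ (good_w (k + 1) t) ((P μ 1 ^ (k + 1)) f)] with x h1 h2 h3 h4
    rw [h1, h2, h3, Pi.smul_apply, term, mul_apply_eq_comp, h4]
    generalize ((P μ 1 ^ (k + 1)) f) x = z
    simp only [v1, w, Nat.factorial_succ, smul_eq_mul]
    push_cast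
    field_simp
    ring

section resolvent

variable {l : ℝ}

lemma abs_a_le (hl : 0 < l) (s : ℝ) (hs : 1 ≤ s) : |s / (l + 2 * s)| ≤ 1 / 2 := by
  rw [abs_of_nonneg (by positivity), div_le_iff₀ (by positivity)]
  linarith

lemma good_a (hl : 0 < l) : Good fun s => s / (l + 2 * s) := ⟨by fun_prop, _, abs_a_le hl⟩

lemma good_r (hl : 0 < l) : Good fun s => 1 / (l + 2 * s) := ⟨by fun_prop, 1, fun s hs => by
  rw [abs_of_nonneg (by positivity), div_le_iff₀ (by positivity)]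
  linarith⟩

lemma good_b (hl : 0 < l) : Good fun s => s / (l + s) := ⟨by fun_prop, 1, fun s hs => by
  rw [abs_of_nonneg (by positivity), div_le_iff₀ (by positivity)]
  linarith⟩

lemma Good.pow {g : ℝ → ℝ} (hg : Good g) (n : ℕ) : Good fun s => g s ^ n := by
  induction n with
  | zero => simpa using good_const 1
  | succ n ih => simpa only [pow_succ] using ih.mul hg

/-- the contraction in the Neumann series -/
noncomputable def B (l : ℝ) : Lp ℂ 1 μ →L[ℂ] Lp ℂ 1 μ := M μ 1 (fun s => s / (l + 2 * s)) * P μ 1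

lemma norm_B_le (hl : 0 < l) : ‖B μ l‖ ≤ 1 / 2 :=
  (norm_mul_le _ _).trans ((mul_le_mul (norm_M_le μ (by fun_prop) (abs_a_le hl)) (norm_P_one μ)
    (norm_nonneg _) (by norm_num)).trans_eq (mul_one _))

/-- the Neumann series -/
noncomputable def J (l : ℝ) : Lp ℂ 1 μ →L[ℂ] Lp ℂ 1 μ := ∑' k, B μ l ^ k

lemma mul_J (hl : 0 < l) : (1 - B μ l) * J μ l = 1 :=
  mul_neg_geom_series _ ((norm_B_le μ hl).trans_lt (by norm_num))

lemma J_mul (hl : 0 < l) : J μ l * (1 - B μ l) = 1 :=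
  geom_series_mul_neg _ ((norm_B_le μ hl).trans_lt (by norm_num))

lemma M_B_comm (hl : 0 < l) {g : ℝ → ℝ} (hg : Good g) : Commute (M μ 1 g) (B μ l) :=
  (M_comm μ hg (good_a hl)).mul_right (P_M_comm μ hg).symm

lemma M_J_comm (hl : 0 < l) {g : ℝ → ℝ} (hg : Good g) : Commute (M μ 1 g) (J μ l) := by
  have h := ((Commute.one_right (M μ 1 g)).sub_right (M_B_comm μ hl hg)).eq
  calc M μ 1 g * J μ l = J μ l * (1 - B μ l) * (M μ 1 g * J μ l) := by rw [J_mul μ hl, one_mul]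
    _ = J μ l * M μ 1 g * ((1 - B μ l) * J μ l) := by
      rw [mul_assoc, ← mul_assoc (1 - B μ l), ← h, mul_assoc, mul_assoc]
    _ = J μ l * M μ 1 g := by rw [mul_J μ hl, mul_one]

/-- the operator `V (l - T)⁻¹` -/
noncomputable def A (l : ℝ) : Lp ℂ 1 μ →L[ℂ] Lp ℂ 1 μ := M μ 1 (fun s => s / (l + 2 * s)) * J μ l

lemma J_sub (hl : 0 < l) (h : Lp ℂ 1 μ) : J μ l h - B μ l (J μ l h) = h := by
  have := congrArg (fun T : Lp ℂ 1 μ →L[ℂ] Lp ℂ 1 μ => T h) (mul_J μ hl)
  simpa using this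

lemma resolvent_surj (hl : 0 < l) (h : Lp ℂ 1 μ) :
    ∃ f g : Lp ℂ 1 μ, IsGen (S μ 1) f g ∧ (l : ℂ) • f - g = h ∧
      A μ l h =ᵐ[μ] fun x => (c x : ℂ) * f x := by
  have hu : A μ l h =ᵐ[μ] fun x => (c x : ℂ) * M μ 1 (fun s => 1 / (l + 2 * s)) (J μ l h) x := by
    filter_upwards [coe_M μ (good_a hl) (J μ l h), coe_M μ (good_r hl) (J μ l h)] with x h1 h2
    rw [A, mul_apply_eq_comp, h1, h2]
    push_cast
    ring
  refine ⟨_, _, isGen_of_mul μ hu, ?_, hu⟩
  have e1 : (l : ℂ) • M μ 1 (fun s => 1 / (l + 2 * s)) (J μ l h) + (2 : ℂ) • A μ l h = J μ l h := by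
    ext1
    filter_upwards [coe_M μ (good_a hl) (J μ l h), coe_M μ (good_r hl) (J μ l h),
      Lp.coeFn_add ((l : ℂ) • M μ 1 (fun s => 1 / (l + 2 * s)) (J μ l h)) ((2 : ℂ) • A μ l h),
      Lp.coeFn_smul (l : ℂ) (M μ 1 (fun s => 1 / (l + 2 * s)) (J μ l h)),
      Lp.coeFn_smul (2 : ℂ) (A μ l h)] with x h1 h2 h3 h4 h5
    rw [h3, Pi.add_apply, h4, h5, Pi.smul_apply, Pi.smul_apply, A, mul_apply_eq_comp, h1, h2]
    have : ((l + 2 * c x : ℝ) : ℂ) ≠ 0 := by
      exact_mod_cast (show 0 < l + 2 * c x by linarith [one_le_c x]).ne'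
    push_cast at this ⊢
    simp only [smul_eq_mul]
    field_simp
  have e2 : P μ 1 (A μ l h) = B μ l (J μ l h) := by
    rw [A, B, ← (P_M_comm μ (good_a hl)).eq]
    rfl
  rw [e2, eq_sub_of_add_eq e1]
  refine Eq.trans ?_ (J_sub μ hl h)
  abel

lemma resolvent_eq (hl : 0 < l) {f g : Lp ℂ 1 μ} (h : IsGen (S μ 1) f g) :
    A μ l ((l : ℂ) • f - g) =ᵐ[μ] fun x => (c x : ℂ) * f x := by
  obtain ⟨f', g', h1, h2, h3⟩ := resolvent_surj μ hl ((l : ℂ) • f - g)
  have h4 := h.sub h1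
  have e : g - g' = (l : ℂ) • (f - f') := by
    rw [smul_sub, sub_eq_sub_iff_sub_eq_sub, ← neg_inj, neg_sub, neg_sub, h2]
  rw [e] at h4
  have e' : f' = f := (sub_eq_zero.1 (h4.eq_zero (isSymmSubMarkov_S μ).2.2.2.1 hl)).symm
  subst e'
  exact h3

theorem isPotentialResolvent (hl : 0 < l) : IsPotentialResolvent (S μ) c l (A μ l) :=
  ⟨fun h => by
    obtain ⟨f, g, h1, h2, _⟩ := resolvent_surj μ hl h
    refine ⟨f, ?_⟩
    rwa [IsShiftedGen, ← h2, sub_sub_cancel],
  fun f h h1 => by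
    have := resolvent_eq μ hl h1
    rwa [sub_sub_cancel] at this⟩

theorem isGenBounded : IsGenBounded (S μ) c := fun _ _ h =>
  (L1.integrable_coeFn _).congr (resolvent_eq μ one_pos h)

lemma norm_A_le (hl : 0 < l) : ‖A μ l‖ ≤ 1 := by
  have h1 : J μ l = 1 + B μ l * J μ l := by
    have := mul_J μ hl
    rw [sub_mul, one_mul] at this
    rw [← this]
    abel
  have h2 : ‖J μ l‖ ≤ 1 + 1 / 2 * ‖J μ l‖ := by
    nth_rewrite 1 [h1]
    exact (norm_add_le _ _).trans (add_le_add ContinuousLinearMap.norm_id_le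
      ((norm_mul_le _ _).trans (mul_le_mul_of_nonneg_right (norm_B_le μ hl) (norm_nonneg _))))
  refine (norm_mul_le _ _).trans ((mul_le_mul (norm_M_le μ (by fun_prop) (abs_a_le hl))
    (show ‖J μ l‖ ≤ 2 by linarith) (norm_nonneg _) (by norm_num)).trans_eq (by norm_num))

/-- the integral -/
noncomputable def I : Lp ℂ 1 μ →L[ℂ] ℂ := L1.integralCLM' ℂ

omit [NormedAddCommGroup E] [NormedSpace ℝ E] [FiniteDimensional ℝ E] [BorelSpace E]
  [μ.IsAddHaarMeasure] in
lemma I_eq (f : Lp ℂ 1 μ) : I μ f = ∫ x, f x ∂μ := by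
  rw [I, ← L1.integral_eq', L1.integral_eq_integral]

lemma I_P (f : Lp ℂ 1 μ) : I μ (P μ 1 f) = I μ f := by
  rw [P, add_apply, smul_apply, smul_apply, map_add, map_smul, map_smul, I_eq, I_eq, I_eq,
    integral_congr_ae (coe_D μ four_ne f), integral_congr_ae (coe_D μ quarter_ne f), integral_dil,
    integral_dil, jac_four, jac_quarter, smul_eq_mul, smul_eq_mul, ← mul_assoc, ← mul_assoc,
    ← add_mul]
  have h := nn_pos E
  have : (al E : ℂ) * ((nn E ^ 2)⁻¹ : ℝ) + (be E : ℂ) * (nn E ^ 2 : ℝ) = 1 := by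
    norm_cast
    unfold al be
    field_simp
    ring
  rw [this, one_mul]

lemma I_A (hl : 0 < l) (h : Lp ℂ 1 μ) : I μ (A μ l h) = I μ (M μ 1 (fun s => s / (l + s)) h) := by
  nth_rewrite 2 [← J_sub μ hl h]
  set y := J μ l h
  have e1 : M μ 1 (fun s => s / (l + s)) (B μ l y) =
      P μ 1 (M μ 1 (fun s => s / (l + s) * (s / (l + 2 * s))) y) := by
    rw [B, ← mul_apply_eq_comp, ← mul_assoc, M_mul μ (good_b hl) (good_a hl),
      ← (P_M_comm μ ((good_b hl).mul (good_a hl))).eq]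
    rfl
  have e2 : M μ 1 (fun s => s / (l + s)) =
      M μ 1 (fun s => s / (l + 2 * s)) + M μ 1 (fun s => s / (l + s) * (s / (l + 2 * s))) := by
    rw [M_add μ (good_a hl) ((good_b hl).mul (good_a hl))]
    refine M_congr μ (good_b hl) ((good_a hl).add ((good_b hl).mul (good_a hl))) fun s hs => ?_
    field_simp
    ring
  rw [map_sub, map_sub, e1, I_P, e2, add_apply, map_add, add_sub_cancel_right]
  rfl

lemma I_A_pow (hl : 0 < l) (h : Lp ℂ 1 μ) (n : ℕ) : ∀ {g : ℝ → ℝ}, Good g →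
    I μ (M μ 1 g ((A μ l ^ n) h)) = I μ (M μ 1 (fun s => g s * (s / (l + s)) ^ n) h) := by
  induction n with
  | zero => intro g _; simp
  | succ n ih =>
    intro g hg
    have c1 : Commute (M μ 1 g) (A μ l) := (M_comm μ hg (good_a hl)).mul_right (M_J_comm μ hl hg)
    rw [pow_succ', mul_apply_eq_comp, ← mul_apply_eq_comp (M μ 1 g), c1.eq, mul_apply_eq_comp,
      I_A μ hl, ← mul_apply_eq_comp, M_mul μ (good_b hl) hg, ih ((good_b hl).mul hg)]
    congr 3
    ext s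
    ring

omit [NormedSpace ℝ E] [FiniteDimensional ℝ E] [MeasurableSpace E] [BorelSpace E] in
lemma c_ge {N : ℕ} (hN : 0 < N) {x : E} (h1 : 1 < ‖x‖) (h2 : ‖x‖ < 4 ^ (1 / N : ℝ)) :
    N ≤ c x := by
  have hN' : (0 : ℝ) < N := by exact_mod_cast hN
  have a1 : 0 < Real.logb 4 ‖x‖ := Real.logb_pos (by norm_num) h1
  have a2 : Real.logb 4 ‖x‖ < 1 / N := (Real.logb_lt_iff_lt_rpow (by norm_num) (by linarith)).2 h2
  have a3 : (1 / N : ℝ) ≤ 1 := by
    rw [div_le_one hN']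
    exact_mod_cast hN
  unfold c
  rw [Int.fract_eq_self.2 ⟨a1.le, by linarith⟩]
  have : (N : ℝ) ≤ (Real.logb 4 ‖x‖)⁻¹ := by
    rw [le_inv_comm₀ hN' a1, ← one_div]
    exact a2.le
  linarith

lemma exists_test [Nontrivial E] (hl : 0 < l) {N : ℕ} (hN : 0 < N) :
    ∃ f : Lp ℂ 1 μ, 0 < ‖f‖ ∧ ∀ n : ℕ, (N / (l + N)) ^ n * ‖f‖ ≤ ‖(A μ l ^ n) f‖ := by
  have hN' : (0 : ℝ) < N := by exact_mod_cast hN
  let Z : Set E := {x | 1 < ‖x‖ ∧ ‖x‖ < 4 ^ (1 / N : ℝ)}
  have ho : IsOpen Z := (isOpen_lt continuous_const continuous_norm).inter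
    (isOpen_lt continuous_norm continuous_const)
  have hlt : (1 : ℝ) < 4 ^ (1 / N : ℝ) := Real.one_lt_rpow (by norm_num) (by positivity)
  have hne : Z.Nonempty := by
    obtain ⟨x, hx⟩ := exists_norm_eq E (show (0 : ℝ) ≤ (1 + 4 ^ (1 / N : ℝ)) / 2 by linarith)
    exact ⟨x, by rw [hx]; linarith, by rw [hx]; linarith⟩
  have hfin : μ Z ≠ ∞ := ((measure_mono (t := Metric.closedBall 0 (4 ^ (1 / N : ℝ)))
    fun x hx => by simpa using hx.2.le).trans_lt (isCompact_closedBall _ _).measure_lt_top).ne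
  have hpos : 0 < μ.real Z := ENNReal.toReal_pos (ho.measure_pos μ hne).ne' hfin
  let f : Lp ℂ 1 μ := indicatorConstLp 1 ho.measurableSet hfin 1
  have hf : ‖f‖ = μ.real Z := by
    rw [norm_indicatorConstLp one_ne_zero ENNReal.one_ne_top]
    simp
  refine ⟨f, hf ▸ hpos, fun n => ?_⟩
  have e := I_A_pow μ hl f n (good_const 1)
  rw [M_const] at e
  simp only [Complex.ofReal_one, one_smul, one_apply_eq_self, one_mul] at e
  have b1 : ‖I μ ((A μ l ^ n) f)‖ ≤ ‖(A μ l ^ n) f‖ := by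
    rw [I_eq, L1.norm_eq_integral_norm]
    exact norm_integral_le_integral_norm _
  have e2 : M μ 1 (fun s => (s / (l + s)) ^ n) f =ᵐ[μ]
      fun x => ((Z.indicator (fun x => (c x / (l + c x)) ^ n) x : ℝ) : ℂ) := by
    filter_upwards [coe_M μ ((good_b hl).pow n) f, indicatorConstLp_coeFn (p := 1)
      (hs := ho.measurableSet) (hμs := hfin) (c := (1 : ℂ))] with x h1 h2
    rw [h1, h2]
    by_cases hx : x ∈ Z <;> simp [hx]
  have hi : Integrable (Z.indicator fun x => (c x / (l + c x)) ^ n) μ := by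
    have := ((L1.integrable_coeFn _).congr e2).re
    simpa using this
  refine le_trans ?_ b1
  rw [e, I_eq, integral_congr_ae e2, integral_complex_ofReal, Complex.norm_real, hf]
  refine le_trans ?_ (le_abs_self _)
  rw [mul_comm, ← smul_eq_mul, ← integral_indicator_const _ ho.measurableSet]
  refine integral_mono ((integrable_indicator_iff ho.measurableSet).2
    (integrableOn_const hfin)) hi fun x => Set.indicator_le_indicator' fun hx => ?_
  have hc := c_ge hN hx.1 hx.2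
  refine pow_le_pow_left₀ (by positivity) ?_ n
  rw [div_le_div_iff₀ (by positivity) (by linarith)]
  nlinarith

theorem spectralRadius_A [Nontrivial E] (hl : 0 < l) : spectralRadius ℂ (A μ l) = 1 := by
  apply le_antisymm
  · obtain ⟨f, hf, -⟩ := exists_test μ hl one_pos
    have : Nontrivial (Lp ℂ 1 μ) := nontrivial_of_ne f 0 (norm_pos_iff.1 hf)
    refine (spectrum.spectralRadius_le_nnnorm _).trans ?_
    exact_mod_cast norm_A_le μ hl
  · have key : ∀ N : ℕ, 0 < N → ENNReal.ofReal (N / (l + N)) ≤ spectralRadius ℂ (A μ l) := by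
      intro N hN
      obtain ⟨f, hf, h⟩ := exists_test μ hl hN
      refine ge_of_tendsto (spectrum.pow_norm_pow_one_div_tendsto_nhds_spectralRadius (A μ l)) ?_
      filter_upwards [eventually_gt_atTop 0] with n hn
      refine ENNReal.ofReal_le_ofReal ?_
      have h1 : (N / (l + N)) ^ n ≤ ‖A μ l ^ n‖ :=
        le_of_mul_le_mul_right ((h n).trans ((A μ l ^ n).le_opNorm f)) hf
      have h2 := Real.rpow_le_rpow (by positivity) h1 (show (0 : ℝ) ≤ 1 / n by positivity)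
      rwa [one_div, Real.pow_rpow_inv_natCast (by positivity) hn.ne', ← one_div] at h2
    have t : Tendsto (fun N : ℕ => ENNReal.ofReal (N / (l + N))) atTop (𝓝 (ENNReal.ofReal 1)) := by
      refine ENNReal.tendsto_ofReal ?_
      simpa only [add_comm] using tendsto_natCast_div_add_atTop l
    rw [ENNReal.ofReal_one] at t
    exact le_of_tendsto t ((eventually_gt_atTop 0).mono key)

end resolvent

end Pool.Agent.Lib.MP_62a15f_an
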