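import Pool.Agent.Lib.MP_62a15f_an.Defs

/-!
Multiplication and dilation operators on `L^p`.
-/

open MeasureTheory Filter Topology
open scoped ENNReal NNReal InnerProductSpace

namespace Pool.Agent.Lib.MP_62a15f_an

section general

variable {X : Type} [MeasurableSpace X] {μ : Measure X}

/-- An operator on `L^p` from a pointwise formula. -/
noncomputable def mkOp (p : ℝ≥0∞) [Fact (1 ≤ p)] (Φ : (X → ℂ) →ₗ[ℂ] (X → ℂ)) (K : ℝ)
    (hae : ∀ f g, f =ᵐ[μ] g → Φ f =ᵐ[μ] Φ g)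
    (hm : ∀ f, AEStronglyMeasurable f μ → AEStronglyMeasurable (Φ f) μ)
    (hb : ∀ f, AEStronglyMeasurable f μ →
      eLpNorm (Φ f) p μ ≤ ENNReal.ofReal K * eLpNorm f p μ) : Lp ℂ p μ →L[ℂ] Lp ℂ p μ :=
  have mem : ∀ f : Lp ℂ p μ, MemLp (Φ f) p μ := fun f =>
    ⟨hm _ (Lp.aestronglyMeasurable f), (hb _ (Lp.aestronglyMeasurable f)).trans_lt
      (ENNReal.mul_lt_top ENNReal.ofReal_lt_top (Lp.memLp f).2)⟩
  LinearMap.mkContinuous
    { toFun := fun f => (mem f).toLp (Φ f)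
      map_add' := fun f g => by
        rw [← MemLp.toLp_add]
        refine MemLp.toLp_congr _ _ ((hae _ _ (Lp.coeFn_add f g)).trans ?_)
        rw [map_add]
      map_smul' := fun a f => by
        rw [RingHom.id_apply, ← MemLp.toLp_const_smul]
        refine MemLp.toLp_congr _ _ ((hae _ _ (Lp.coeFn_smul a f)).trans ?_)
        rw [map_smul] } (max K 0) fun f => by
    simp only [LinearMap.coe_mk, AddHom.coe_mk, Lp.norm_toLp]
    have h := hb _ (Lp.aestronglyMeasurable f)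
    have h2 := ENNReal.toReal_mono
      (ENNReal.mul_ne_top ENNReal.ofReal_ne_top (Lp.eLpNorm_ne_top f)) h
    rwa [ENNReal.toReal_mul, ENNReal.toReal_ofReal', ← Lp.norm_def] at h2

lemma coe_mkOp (p : ℝ≥0∞) [Fact (1 ≤ p)] (Φ : (X → ℂ) →ₗ[ℂ] (X → ℂ)) (K : ℝ)
    (hae : ∀ f g, f =ᵐ[μ] g → Φ f =ᵐ[μ] Φ g)
    (hm : ∀ f, AEStronglyMeasurable f μ → AEStronglyMeasurable (Φ f) μ)
    (hb : ∀ f, AEStronglyMeasurable f μ →
      eLpNorm (Φ f) p μ ≤ ENNReal.ofReal K * eLpNorm f p μ) (f : Lp ℂ p μ) :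
    mkOp p Φ K hae hm hb f =ᵐ[μ] Φ f :=
  MemLp.coeFn_toLp (f := Φ f) ⟨hm _ (Lp.aestronglyMeasurable f),
    (hb _ (Lp.aestronglyMeasurable f)).trans_lt
      (ENNReal.mul_lt_top ENNReal.ofReal_lt_top (Lp.memLp f).2)⟩

lemma ae_mem_of_tendsto {p : ℝ≥0∞} [Fact (1 ≤ p)] {F : ℕ → Lp ℂ p μ} {G : Lp ℂ p μ}
    (h : Tendsto F atTop (𝓝 G)) {C : Set ℂ} (hC : IsClosed C)
    (hF : ∀ n, ∀ᵐ x ∂μ, F n x ∈ C) : ∀ᵐ x ∂μ, G x ∈ C := by
  obtain ⟨ns, _, h2⟩ := (tendstoInMeasure_of_tendsto_Lp h).exists_seq_tendsto_ae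
  filter_upwards [h2, ae_all_iff.2 hF] with x h3 h4
  exact hC.mem_of_tendsto h3 (Eventually.of_forall fun n => h4 _)

lemma ae_eq_of_tendsto {p q : ℝ≥0∞} [Fact (1 ≤ p)] [Fact (1 ≤ q)] {F : ℕ → Lp ℂ p μ}
    {G : Lp ℂ p μ} {F' : ℕ → Lp ℂ q μ} {G' : Lp ℂ q μ}
    (h : Tendsto F atTop (𝓝 G)) (h' : Tendsto F' atTop (𝓝 G'))
    (hF : ∀ n, F n =ᵐ[μ] F' n) : G =ᵐ[μ] G' :=
  tendstoInMeasure_ae_unique ((tendstoInMeasure_of_tendsto_Lp h).congr_left hF)
    (tendstoInMeasure_of_tendsto_Lp h')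

/-- dominated convergence in `L^p` -/
lemma tendsto_Lp_dominated {ι : Type} {l : Filter ι} [l.IsCountablyGenerated] {p : ℝ≥0∞}
    [Fact (1 ≤ p)] (hp : p ≠ ∞) {F : ι → Lp ℂ p μ} {G f : Lp ℂ p μ} {Φ : ι → X → ℂ} {Γ : X → ℂ}
    (hF : ∀ᶠ i in l, F i =ᵐ[μ] Φ i) (hΦ : ∀ i, AEStronglyMeasurable (Φ i) μ) (hG : G =ᵐ[μ] Γ)
    (K : ℝ) (hb : ∀ᶠ i in l, ∀ x, ‖Φ i x - Γ x‖ ≤ K * ‖f x‖)
    (hl : ∀ x, Tendsto (fun i => Φ i x) l (𝓝 (Γ x))) : Tendsto F l (𝓝 G) := by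
  have hp0 : p ≠ 0 := (zero_lt_one.trans_le (Fact.out : 1 ≤ p)).ne'
  have hpr : 0 < p.toReal := ENNReal.toReal_pos hp0 hp
  rw [Lp.tendsto_Lp_iff_tendsto_eLpNorm']
  have e : (fun i => eLpNorm (Φ i - Γ) p μ) =ᶠ[l] fun i => eLpNorm (⇑(F i) - ⇑G) p μ :=
    hF.mono fun i hi => (eLpNorm_congr_ae (hi.sub hG)).symm
  refine Tendsto.congr' e ?_
  simp only [eLpNorm_eq_lintegral_rpow_enorm_toReal hp0 hp]
  have key : Tendsto (fun i => ∫⁻ x, ‖(Φ i - Γ) x‖ₑ ^ p.toReal ∂μ) l (𝓝 (∫⁻ _x, 0 ∂μ)) := by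
    refine tendsto_lintegral_filter_of_dominated_convergence'
      (fun x => ‖((K : ℂ) • f) x‖ₑ ^ p.toReal) ?_ ?_ ?_ ?_
    · exact Eventually.of_forall fun i =>
        (((hΦ i).sub ((Lp.aestronglyMeasurable G).congr hG)).enorm).pow_const _
    · filter_upwards [hb] with i hi
      filter_upwards [Lp.coeFn_smul (K : ℂ) f] with x hx'
      refine ENNReal.rpow_le_rpow ?_ hpr.le
      rw [hx', ← ofReal_norm, ← ofReal_norm]
      refine ENNReal.ofReal_le_ofReal ((hi x).trans ?_)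
      rw [Pi.smul_apply, norm_smul, Complex.norm_real]
      exact mul_le_mul_of_nonneg_right (le_abs_self K) (norm_nonneg _)
    · exact (lintegral_rpow_enorm_lt_top_of_eLpNorm_lt_top hp0 hp (Lp.memLp _).2).ne
    · refine Eventually.of_forall fun x => ?_
      have h1 : Tendsto (fun i => ‖Φ i x - Γ x‖ₑ) l (𝓝 0) := by
        have := ((hl x).sub_const (Γ x)).enorm
        simpa using this
      have h2 := (ENNReal.continuous_rpow_const (y := p.toReal)).continuousAt.tendsto.comp h1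
      rwa [ENNReal.zero_rpow_of_pos hpr] at h2
  rw [lintegral_zero] at key
  have h2 := (ENNReal.continuous_rpow_const (y := 1 / p.toReal)).continuousAt.tendsto.comp key
  rwa [ENNReal.zero_rpow_of_pos (by positivity)] at h2

end general

variable {E : Type} [NormedAddCommGroup E] [NormedSpace ℝ E] [FiniteDimensional ℝ E]
  [MeasurableSpace E] [BorelSpace E] (μ : Measure E) [μ.IsAddHaarMeasure]

/-- the dilation invariant unbounded speed -/
noncomputable def c (x : E) : ℝ := 1 + (Int.fract (Real.logb 4 ‖x‖))⁻¹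

omit [NormedSpace ℝ E] [FiniteDimensional ℝ E] [MeasurableSpace E] [BorelSpace E] in
lemma one_le_c (x : E) : 1 ≤ c x :=
  le_add_of_nonneg_right (inv_nonneg.2 (Int.fract_nonneg _))

omit [NormedSpace ℝ E] [FiniteDimensional ℝ E] in
lemma measurable_c : Measurable (c : E → ℝ) := by
  unfold c Real.logb
  exact measurable_const.add
    (measurable_fract.comp ((Real.measurable_log.comp measurable_norm).div_const _)).inv

omit [FiniteDimensional ℝ E] [MeasurableSpace E] [BorelSpace E] in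
lemma c_four (x : E) : c ((4 : ℝ) • x) = c x := by
  by_cases hx : x = 0
  · simp [hx]
  · unfold c
    rw [norm_smul, Real.norm_of_nonneg (by norm_num), Real.logb_mul (by norm_num) (by simpa),
      Real.logb_self_eq_one (by norm_num), add_comm (1 : ℝ) (Real.logb _ _), Int.fract_add_one]

omit [FiniteDimensional ℝ E] [MeasurableSpace E] [BorelSpace E] in
lemma c_quarter (x : E) : c ((4⁻¹ : ℝ) • x) = c x := by
  rw [← c_four, smul_smul]
  norm_num

/-- bounded measurable symbols -/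
def Good (g : ℝ → ℝ) : Prop := Measurable g ∧ ∃ K : ℝ, ∀ s, 1 ≤ s → |g s| ≤ K

lemma Good.mul {g h : ℝ → ℝ} (hg : Good g) (hh : Good h) : Good fun s => g s * h s := by
  obtain ⟨m1, K, hK⟩ := hg
  obtain ⟨m2, L, hL⟩ := hh
  refine ⟨m1.mul m2, K * L, fun s hs => ?_⟩
  rw [abs_mul]
  exact mul_le_mul (hK s hs) (hL s hs) (abs_nonneg _) ((abs_nonneg _).trans (hK s hs))

lemma Good.add {g h : ℝ → ℝ} (hg : Good g) (hh : Good h) : Good fun s => g s + h s := by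
  obtain ⟨m1, K, hK⟩ := hg
  obtain ⟨m2, L, hL⟩ := hh
  exact ⟨m1.add m2, K + L, fun s hs => (abs_add_le _ _).trans (add_le_add (hK s hs) (hL s hs))⟩

lemma good_const (a : ℝ) : Good fun _ => a := ⟨measurable_const, |a|, fun _ _ => le_rfl⟩

/-- pointwise multiplication -/
noncomputable def mulFun (g : ℝ → ℝ) : (E → ℂ) →ₗ[ℂ] (E → ℂ) where
  toFun f := fun x => (g (c x) : ℂ) * f x
  map_add' f h := by ext x; simp [mul_add]
  map_smul' a f := by ext x; simp; ring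

open Classical in
/-- multiplication by a bounded function of `c` -/
noncomputable def M (p : ℝ≥0∞) [Fact (1 ≤ p)] (g : ℝ → ℝ) : Lp ℂ p μ →L[ℂ] Lp ℂ p μ :=
  if h : Good g then
    mkOp p (mulFun g) h.2.choose
      (fun f f' hf => hf.mono fun x hx => by simp [mulFun, hx])
      (fun f hf => (Complex.measurable_ofReal.comp
        (h.1.comp measurable_c)).aestronglyMeasurable.mul hf)
      (fun f _ => eLpNorm_le_mul_eLpNorm_of_ae_le_mul (Eventually.of_forall fun x => by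
        simp only [mulFun, LinearMap.coe_mk, AddHom.coe_mk, norm_mul, Complex.norm_real]
        exact mul_le_mul_of_nonneg_right (h.2.choose_spec _ (one_le_c x)) (norm_nonneg _)) p)
  else 0

variable {p : ℝ≥0∞} [Fact (1 ≤ p)]

omit [NormedSpace ℝ E] [FiniteDimensional ℝ E] [μ.IsAddHaarMeasure] in
lemma coe_M {g : ℝ → ℝ} (hg : Good g) (f : Lp ℂ p μ) :
    M μ p g f =ᵐ[μ] fun x => (g (c x) : ℂ) * f x := by
  unfold M
  rw [dif_pos hg]
  exact coe_mkOp _ _ _ _ _ _ _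

omit [NormedSpace ℝ E] [FiniteDimensional ℝ E] [μ.IsAddHaarMeasure] in
lemma norm_M_le {g : ℝ → ℝ} (hg : Measurable g) {K : ℝ} (hK : ∀ s, 1 ≤ s → |g s| ≤ K) :
    ‖M μ p g‖ ≤ K := by
  refine ContinuousLinearMap.opNorm_le_bound _ ((abs_nonneg _).trans (hK 1 le_rfl)) fun f => ?_
  refine Lp.norm_le_mul_norm_of_ae_le_mul ?_
  filter_upwards [coe_M μ ⟨hg, K, hK⟩ f] with x hx
  rw [hx, norm_mul, Complex.norm_real]
  exact mul_le_mul_of_nonneg_right (hK _ (one_le_c x)) (norm_nonneg _)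

omit [NormedSpace ℝ E] [FiniteDimensional ℝ E] [μ.IsAddHaarMeasure] in
lemma M_mul {g h : ℝ → ℝ} (hg : Good g) (hh : Good h) :
    M μ p g * M μ p h = M μ p fun s => g s * h s := by
  ext1 f
  ext1
  filter_upwards [coe_M μ hg (M μ p h f), coe_M μ hh f, coe_M μ (hg.mul hh) f] with x h1 h2 h3
  rw [mul_apply_eq_comp, h1, h2, h3]
  push_cast
  ring

omit [NormedSpace ℝ E] [FiniteDimensional ℝ E] [μ.IsAddHaarMeasure] in
lemma M_add {g h : ℝ → ℝ} (hg : Good g) (hh : Good h) :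
    M μ p g + M μ p h = M μ p fun s => g s + h s := by
  ext1 f
  ext1
  filter_upwards [coe_M μ hg f, coe_M μ hh f, coe_M μ (hg.add hh) f,
    Lp.coeFn_add (M μ p g f) (M μ p h f)] with x h1 h2 h3 h4
  rw [add_apply, h4, Pi.add_apply, h1, h2, h3]
  push_cast
  ring

omit [NormedSpace ℝ E] [FiniteDimensional ℝ E] [μ.IsAddHaarMeasure] in
lemma M_const (a : ℝ) : M μ p (fun _ => a) = (a : ℂ) • (1 : Lp ℂ p μ →L[ℂ] Lp ℂ p μ) := by
  ext1 f
  ext1
  filter_upwards [coe_M μ (good_const a) f, Lp.coeFn_smul (a : ℂ) f] with x h1 h2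
  rw [h1, smul_apply, one_apply_eq_self, h2]
  rfl

omit [NormedSpace ℝ E] [FiniteDimensional ℝ E] [μ.IsAddHaarMeasure] in
lemma M_congr {g h : ℝ → ℝ} (hg : Good g) (hh : Good h) (e : ∀ s, 1 ≤ s → g s = h s) :
    M μ p g = M μ p h := by
  ext1 f
  ext1
  filter_upwards [coe_M μ hg f, coe_M μ hh f] with x h1 h2
  rw [h1, h2, e _ (one_le_c x)]

omit [NormedSpace ℝ E] [FiniteDimensional ℝ E] [μ.IsAddHaarMeasure] in
lemma M_comm {g h : ℝ → ℝ} (hg : Good g) (hh : Good h) : Commute (M μ p g) (M μ p h) := by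
  rw [Commute, SemiconjBy, M_mul μ hg hh, M_mul μ hh hg]
  simp only [mul_comm]

omit [NormedSpace ℝ E] [FiniteDimensional ℝ E] [μ.IsAddHaarMeasure] in
lemma M_tendsto {ι : Type} {l : Filter ι} [l.IsCountablyGenerated] (hp : p ≠ ∞)
    {g : ι → ℝ → ℝ} {g0 : ℝ → ℝ} (hg : ∀ i, Measurable (g i)) (hg0 : Measurable g0) (K : ℝ)
    (hb : ∀ᶠ i in l, ∀ s, 1 ≤ s → |g i s| ≤ K) (hb0 : ∀ s, 1 ≤ s → |g0 s| ≤ K)
    (hl : ∀ s, 1 ≤ s → Tendsto (fun i => g i s) l (𝓝 (g0 s))) (f : Lp ℂ p μ) :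
    Tendsto (fun i => M μ p (g i) f) l (𝓝 (M μ p g0 f)) := by
  refine tendsto_Lp_dominated hp (f := f) (Φ := fun i x => (g i (c x) : ℂ) * f x)
    (hb.mono fun i hi => coe_M μ ⟨hg i, K, hi⟩ f) (fun i => ?_) (coe_M μ ⟨hg0, K, hb0⟩ f) (2 * K)
    (hb.mono fun i hi x => ?_) fun x => ?_
  · exact (Complex.measurable_ofReal.comp
      ((hg i).comp measurable_c)).aestronglyMeasurable.mul (Lp.aestronglyMeasurable f)
  · rw [← sub_mul, norm_mul, ← Complex.ofReal_sub, Complex.norm_real]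
    refine mul_le_mul_of_nonneg_right ?_ (norm_nonneg _)
    have b1 := abs_le.1 (hi _ (one_le_c x))
    have b2 := abs_le.1 (hb0 _ (one_le_c x))
    rw [Real.norm_eq_abs, abs_le]
    constructor <;> linarith [b1.1, b1.2, b2.1, b2.2]
  · exact ((Complex.continuous_ofReal.tendsto _).comp (hl _ (one_le_c x))).mul_const _

/-- the Jacobian of the inverse dilation -/
noncomputable def jac (E : Type) [AddCommGroup E] [Module ℝ E] (a : ℝ) : ℝ :=
  |(a ^ Module.finrank ℝ E)⁻¹|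

lemma map_dil {a : ℝ} (ha : a ≠ 0) :
    Measure.map (fun x : E => a • x) μ = ENNReal.ofReal (jac E a) • μ :=
  Measure.map_addHaar_smul μ ha

omit [FiniteDimensional ℝ E] [MeasurableSpace E] [BorelSpace E] in
lemma jac_pos {a : ℝ} (ha : a ≠ 0) : 0 < jac E a := abs_pos.2 (inv_ne_zero (pow_ne_zero _ ha))

lemma qmp_dil {a : ℝ} (ha : a ≠ 0) :
    Measure.QuasiMeasurePreserving (fun x : E => a • x) μ μ :=
  ⟨measurable_const_smul a, by rw [map_dil μ ha]; exact Measure.smul_absolutelyContinuous⟩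

lemma eLpNorm_dil {a : ℝ} (ha : a ≠ 0) {f : E → ℂ} (hf : AEStronglyMeasurable f μ) (q : ℝ≥0∞) :
    eLpNorm (fun x => f (a • x)) q μ =
      ENNReal.ofReal (jac E a ^ (1 / q).toReal) * eLpNorm f q μ := by
  have h1 : AEStronglyMeasurable f (Measure.map (fun x : E => a • x) μ) := by
    rw [map_dil μ ha]
    exact hf.smul_measure _
  have h2 := eLpNorm_map_measure (p := q) h1 (measurable_const_smul a).aemeasurable
  rw [map_dil μ ha, eLpNorm_smul_measure_of_ne_zero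
    (ENNReal.ofReal_pos.2 (jac_pos ha)).ne'] at h2
  rw [← ENNReal.ofReal_rpow_of_pos (jac_pos ha)]
  exact h2.symm

/-- pointwise dilation -/
def dilFun (a : ℝ) : (E → ℂ) →ₗ[ℂ] (E → ℂ) where
  toFun f := fun x => f (a • x)
  map_add' _ _ := rfl
  map_smul' _ _ := rfl

/-- dilation on `L^p` -/
noncomputable def D (p : ℝ≥0∞) [Fact (1 ≤ p)] (a : ℝ) (ha : a ≠ 0) : Lp ℂ p μ →L[ℂ] Lp ℂ p μ :=
  mkOp p (dilFun a) (jac E a ^ (1 / p).toReal)
    (fun _ _ hf => (qmp_dil μ ha).ae_eq_comp hf)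
    (fun _ hf => hf.comp_quasiMeasurePreserving (qmp_dil μ ha))
    (fun _ hf => (eLpNorm_dil μ ha hf p).le)

lemma coe_D {a : ℝ} (ha : a ≠ 0) (f : Lp ℂ p μ) : D μ p a ha f =ᵐ[μ] fun x => f (a • x) :=
  coe_mkOp _ _ _ _ _ _ _

lemma norm_D_le {a : ℝ} (ha : a ≠ 0) : ‖D μ p a ha‖ ≤ jac E a ^ (1 / p).toReal := by
  have h0 : 0 ≤ jac E a ^ (1 / p).toReal := Real.rpow_nonneg (jac_pos ha).le _
  refine ContinuousLinearMap.opNorm_le_bound _ h0 fun f => ?_
  rw [Lp.norm_def, Lp.norm_def, eLpNorm_congr_ae (coe_D μ ha f),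
    eLpNorm_dil μ ha (Lp.aestronglyMeasurable f), ENNReal.toReal_mul, ENNReal.toReal_ofReal h0]

lemma D_M_comm {a : ℝ} (ha : a ≠ 0) (hc : ∀ x : E, c (a • x) = c x) {g : ℝ → ℝ} (hg : Good g) :
    Commute (D μ p a ha) (M μ p g) := by
  rw [Commute, SemiconjBy]
  ext1 f
  ext1
  filter_upwards [coe_D μ ha (M μ p g f), (qmp_dil μ ha).ae_eq_comp (coe_M μ hg f),
    coe_M μ hg (D μ p a ha f), coe_D μ ha f] with x h1 h2 h3 h4
  rw [mul_apply_eq_comp, mul_apply_eq_comp, h1, h3, h4]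
  simpa [hc] using h2

lemma integral_dil (a : ℝ) (f : E → ℂ) :
    ∫ x, f (a • x) ∂μ = (jac E a : ℂ) * ∫ x, f x ∂μ := by
  rw [Measure.integral_comp_smul]
  rfl

end Pool.Agent.Lib.MP_62a15f_an
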