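import Pool.Agent.Lib.MP_62a15f_an.Ops

/-!
The Markov operator `P` and the semigroup `U t = exp (t c (P - 2))`.
-/

open MeasureTheory Filter Topology
open scoped ENNReal NNReal InnerProductSpace

namespace Pool.Agent.Lib.MP_62a15f_an

/-- `2 ^ d` -/
noncomputable def nn (E : Type) [AddCommGroup E] [Module ℝ E] : ℝ := 2 ^ Module.finrank ℝ E

section
variable (E : Type) [AddCommGroup E] [Module ℝ E]

lemma one_le_nn : 1 ≤ nn E := one_le_pow₀ (by norm_num)

lemma nn_pos : 0 < nn E := zero_lt_one.trans_le (one_le_nn E)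

lemma jac_four : jac E 4 = (nn E ^ 2)⁻¹ := by
  unfold jac nn
  rw [abs_of_nonneg (by positivity), ← pow_mul, mul_comm, pow_mul]
  norm_num

lemma jac_quarter : jac E 4⁻¹ = nn E ^ 2 := by
  unfold jac nn
  rw [abs_of_nonneg (by positivity), ← pow_mul, mul_comm, pow_mul, inv_pow, inv_inv]
  norm_num

/-- weight of the expansion -/
noncomputable def al : ℝ := nn E ^ 2 / (nn E ^ 2 + 1)
/-- weight of the contraction -/
noncomputable def be : ℝ := 1 / (nn E ^ 2 + 1)

lemma al_nonneg : 0 ≤ al E := by unfold al; positivity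
lemma be_nonneg : 0 ≤ be E := by unfold be; positivity

/-- bound on all `L^p` -/
noncomputable def th : ℝ := 2 * nn E ^ 2 / (nn E ^ 2 + 1)
/-- bound on `L²` -/
noncomputable def rho : ℝ := 2 * nn E / (nn E ^ 2 + 1)

lemma th_nonneg : 0 ≤ th E := by unfold th; positivity
lemma th_lt : th E < 2 := by
  unfold th
  rw [div_lt_iff₀ (by positivity)]
  linarith

lemma rho_nonneg : 0 ≤ rho E := by have := nn_pos E; unfold rho; positivity

lemma rho_lt (h : 0 < Module.finrank ℝ E) : rho E < 1 := by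
  have : 2 ≤ nn E := by
    unfold nn
    calc (2 : ℝ) = 2 ^ 1 := by norm_num
      _ ≤ _ := pow_le_pow_right₀ (by norm_num) h
  unfold rho
  rw [div_lt_iff₀ (by positivity)]
  nlinarith

end

variable {E : Type} [NormedAddCommGroup E] [NormedSpace ℝ E] [FiniteDimensional ℝ E]
  [MeasurableSpace E] [BorelSpace E] (μ : Measure E) [μ.IsAddHaarMeasure]

lemma four_ne : (4 : ℝ) ≠ 0 := by norm_num
lemma quarter_ne : (4⁻¹ : ℝ) ≠ 0 := by norm_num

/-- the symmetric Markov operator -/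
noncomputable def P (p : ℝ≥0∞) [Fact (1 ≤ p)] : Lp ℂ p μ →L[ℂ] Lp ℂ p μ :=
  (al E : ℂ) • D μ p 4 four_ne + (be E : ℂ) • D μ p 4⁻¹ quarter_ne

variable {p : ℝ≥0∞} [Fact (1 ≤ p)]

lemma coe_P (f : Lp ℂ p μ) :
    P μ p f =ᵐ[μ] fun x => (al E : ℂ) * f ((4 : ℝ) • x) + (be E : ℂ) * f ((4⁻¹ : ℝ) • x) := by
  filter_upwards [Lp.coeFn_add ((al E : ℂ) • D μ p 4 four_ne f)
      ((be E : ℂ) • D μ p 4⁻¹ quarter_ne f), Lp.coeFn_smul (al E : ℂ) (D μ p 4 four_ne f),
    Lp.coeFn_smul (be E : ℂ) (D μ p 4⁻¹ quarter_ne f), coe_D μ four_ne f, coe_D μ quarter_ne f]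
    with x h1 h2 h3 h4 h5
  rw [P, add_apply, smul_apply, smul_apply, h1, Pi.add_apply, h2, h3, Pi.smul_apply, Pi.smul_apply,
    h4, h5]
  rfl

lemma norm_P_le' : ‖P μ p‖ ≤
    al E * ((nn E ^ 2)⁻¹) ^ (1 / p).toReal + be E * (nn E ^ 2) ^ (1 / p).toReal := by
  refine (norm_add_le _ _).trans (add_le_add ?_ ?_)
  · rw [norm_smul, Complex.norm_real, Real.norm_of_nonneg (al_nonneg E), ← jac_four]
    exact mul_le_mul_of_nonneg_left (norm_D_le μ _) (al_nonneg E)
  · rw [norm_smul, Complex.norm_real, Real.norm_of_nonneg (be_nonneg E), ← jac_quarter]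
    exact mul_le_mul_of_nonneg_left (norm_D_le μ _) (be_nonneg E)

lemma norm_P_le : ‖P μ p‖ ≤ th E := by
  have h1 : 1 ≤ nn E ^ 2 := one_le_pow₀ (one_le_nn E)
  have e0 : 0 ≤ (1 / p).toReal := ENNReal.toReal_nonneg
  have e1 : (1 / p).toReal ≤ 1 := by
    refine ENNReal.toReal_le_of_le_ofReal zero_le_one ?_
    simpa using (Fact.out : 1 ≤ p)
  have b1 : ((nn E ^ 2)⁻¹) ^ (1 / p).toReal ≤ 1 :=
    Real.rpow_le_one (by positivity) (inv_le_one_of_one_le₀ h1) e0
  have b2 : (nn E ^ 2) ^ (1 / p).toReal ≤ nn E ^ 2 := by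
    simpa using Real.rpow_le_rpow_of_exponent_le h1 e1
  refine (norm_P_le' μ).trans ?_
  have : th E = al E * 1 + be E * nn E ^ 2 := by unfold th al be; field_simp; ring
  rw [this]
  exact add_le_add (mul_le_mul_of_nonneg_left b1 (al_nonneg E))
    (mul_le_mul_of_nonneg_left b2 (be_nonneg E))

lemma norm_P_one : ‖P μ 1‖ ≤ 1 := by
  refine (norm_P_le' μ).trans (le_of_eq ?_)
  have := nn_pos E
  simp only [div_one, ENNReal.toReal_one, Real.rpow_one, al, be]
  field_simp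
  ring

lemma norm_P_top : ‖P μ ∞‖ ≤ 1 := by
  refine (norm_P_le' μ).trans (le_of_eq ?_)
  simp only [ENNReal.div_top, ENNReal.toReal_zero, Real.rpow_zero, al, be]
  field_simp

lemma norm_P_two : ‖P μ 2‖ ≤ rho E := by
  refine (norm_P_le' μ).trans (le_of_eq ?_)
  have h := nn_pos E
  have e : ((1 : ℝ≥0∞) / 2).toReal = 1 / 2 := by simp
  rw [e, ← Real.sqrt_eq_rpow, ← Real.sqrt_eq_rpow, Real.sqrt_inv, Real.sqrt_sq h.le]
  unfold al be rho
  field_simp
  ring

lemma P_M_comm {g : ℝ → ℝ} (hg : Good g) : Commute (P μ p) (M μ p g) :=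
  ((D_M_comm μ four_ne c_four hg).smul_left _).add_left
    ((D_M_comm μ quarter_ne c_quarter hg).smul_left _)

lemma P_congr {q : ℝ≥0∞} [Fact (1 ≤ q)] {f : Lp ℂ p μ} {g : Lp ℂ q μ} (h : f =ᵐ[μ] g) :
    P μ p f =ᵐ[μ] P μ q g := by
  filter_upwards [coe_P μ f, coe_P μ g, (qmp_dil μ four_ne).ae_eq_comp h,
    (qmp_dil μ quarter_ne).ae_eq_comp h] with x h1 h2 h3 h4
  simp only [Function.comp] at h3 h4
  rw [h1, h2, h3, h4]

lemma P_pow_congr {q : ℝ≥0∞} [Fact (1 ≤ q)] {f : Lp ℂ p μ} {g : Lp ℂ q μ} (h : f =ᵐ[μ] g)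
    (k : ℕ) : (P μ p ^ k) f =ᵐ[μ] (P μ q ^ k) g := by
  induction k with
  | zero => simpa using h
  | succ k ih => rw [pow_succ', pow_succ']; exact P_congr μ ih

/-- the closed cone of nonnegative reals -/
def cone : Set ℂ := {z | 0 ≤ z.re ∧ z.im = 0}

lemma isClosed_cone : IsClosed cone :=
  (isClosed_le continuous_const Complex.continuous_re).inter
    (isClosed_eq Complex.continuous_im continuous_const)

lemma cone_add {z w : ℂ} (hz : z ∈ cone) (hw : w ∈ cone) : z + w ∈ cone :=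
  ⟨by simpa using add_nonneg hz.1 hw.1, by simp [hz.2, hw.2]⟩

lemma cone_mul {a : ℝ} (ha : 0 ≤ a) {w : ℂ} (hw : w ∈ cone) : (a : ℂ) * w ∈ cone :=
  ⟨by simpa using mul_nonneg ha hw.1, by simp [hw.2]⟩

lemma P_pos {f : Lp ℂ p μ} (h : ∀ᵐ x ∂μ, f x ∈ cone) : ∀ᵐ x ∂μ, P μ p f x ∈ cone := by
  filter_upwards [coe_P μ f, (qmp_dil μ four_ne).ae h, (qmp_dil μ quarter_ne).ae h] with x h1 h2 h3
  rw [h1]
  exact cone_add (cone_mul (al_nonneg E) h2) (cone_mul (be_nonneg E) h3)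

lemma P_pow_pos {f : Lp ℂ p μ} (h : ∀ᵐ x ∂μ, f x ∈ cone) (k : ℕ) :
    ∀ᵐ x ∂μ, (P μ p ^ k) f x ∈ cone := by
  induction k with
  | zero => simpa using h
  | succ k ih => rw [pow_succ']; exact P_pos μ ih

lemma P_mul_c {f u : Lp ℂ p μ} (h : u =ᵐ[μ] fun x => (c x : ℂ) * f x) :
    P μ p u =ᵐ[μ] fun x => (c x : ℂ) * P μ p f x := by
  filter_upwards [coe_P μ f, coe_P μ u, (qmp_dil μ four_ne).ae_eq_comp h,
    (qmp_dil μ quarter_ne).ae_eq_comp h] with x h1 h2 h3 h4
  simp only [Function.comp, c_four, c_quarter] at h3 h4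
  rw [h1, h2, h3, h4]
  ring

lemma P_pow_mul_c {f u : Lp ℂ p μ} (h : u =ᵐ[μ] fun x => (c x : ℂ) * f x) (k : ℕ) :
    (P μ p ^ k) u =ᵐ[μ] fun x => (c x : ℂ) * (P μ p ^ k) f x := by
  induction k with
  | zero => simpa using h
  | succ k ih => rw [pow_succ']; exact P_mul_c μ ih

lemma inner_D {a : ℝ} (ha : a ≠ 0) (f g : Lp ℂ 2 μ) :
    ⟪D μ 2 a ha f, g⟫_ℂ = (jac E a : ℂ) * ⟪f, D μ 2 a⁻¹ (inv_ne_zero ha) g⟫_ℂ := by
  have e : ∫ x, ⟪f x, D μ 2 a⁻¹ (inv_ne_zero ha) g x⟫_ℂ ∂μ = ∫ x, ⟪f x, g (a⁻¹ • x)⟫_ℂ ∂μ :=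
    integral_congr_ae ((coe_D μ (inv_ne_zero ha) g).mono fun x hx => by simp only [hx])
  rw [L2.inner_def, L2.inner_def, e, ← integral_dil μ a]
  refine integral_congr_ae ((coe_D μ ha f).mono fun x hx => ?_)
  simp only [hx, smul_smul, inv_mul_cancel₀ ha, one_smul]

lemma P_selfAdjoint : IsSelfAdjoint (P μ 2) := by
  rw [ContinuousLinearMap.isSelfAdjoint_iff_isSymmetric]
  intro f g
  have h1 := inner_D μ four_ne f g
  have h2 := inner_D μ quarter_ne f g
  have h := nn_pos E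
  have e : D μ 2 (4⁻¹ : ℝ)⁻¹ (inv_ne_zero quarter_ne) = D μ 2 4 four_ne := by
    congr 1
    norm_num
  rw [e] at h2
  simp only [ContinuousLinearMap.coe_coe, P, add_apply, smul_apply, inner_add_left, inner_add_right,
    inner_smul_left, inner_smul_right, Complex.conj_ofReal, h1, h2, jac_four, jac_quarter]
  have a1 : (al E : ℂ) * ((nn E ^ 2)⁻¹ : ℝ) = be E := by
    norm_cast
    unfold al be
    field_simp
  have a2 : (be E : ℂ) * (nn E ^ 2 : ℝ) = al E := by
    norm_cast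
    unfold al be
    field_simp
  rw [← mul_assoc, ← mul_assoc, a1, a2, add_comm]

omit [NormedSpace ℝ E] [FiniteDimensional ℝ E] [μ.IsAddHaarMeasure] in
lemma M_selfAdjoint {g : ℝ → ℝ} (hg : Good g) : IsSelfAdjoint (M μ 2 g) := by
  rw [ContinuousLinearMap.isSelfAdjoint_iff_isSymmetric]
  intro f h
  rw [L2.inner_def, L2.inner_def]
  refine integral_congr_ae ?_
  filter_upwards [coe_M μ hg f, coe_M μ hg h] with x h1 h2
  simp only [ContinuousLinearMap.coe_coe, h1, h2]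
  simp
  ring

/-- the Poisson weights -/
noncomputable def w (k : ℕ) (t s : ℝ) : ℝ := Real.exp (-2 * (t * s)) * (t * s) ^ k / k.factorial

lemma w_nonneg (k : ℕ) {t s : ℝ} (h : 0 ≤ t * s) : 0 ≤ w k t s := by unfold w; positivity

lemma w_le (k : ℕ) {t s : ℝ} (h : 0 ≤ t * s) : w k t s ≤ (1 / 2) ^ k := by
  have h1 := Real.pow_div_factorial_le_exp (2 * (t * s)) (by positivity) k
  have h2 : w k t s = (1 / 2) ^ k * (Real.exp (-(2 * (t * s))) *
      ((2 * (t * s)) ^ k / k.factorial)) := by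
    unfold w
    rw [mul_pow 2, one_div, inv_pow, neg_mul]
    field_simp
  rw [h2]
  refine mul_le_of_le_one_right (by positivity) ?_
  rw [Real.exp_neg, inv_mul_le_iff₀ (Real.exp_pos _), mul_one]
  exact h1

lemma continuous_w (k : ℕ) : Continuous fun z : ℝ × ℝ => w k z.1 z.2 := by
  unfold w
  fun_prop

lemma abs_w_le (k : ℕ) (t : ℝ≥0) (s : ℝ) (hs : 1 ≤ s) : |w k t s| ≤ (1 / 2) ^ k := by
  have h : 0 ≤ (t : ℝ) * s := mul_nonneg t.2 (by linarith)
  rw [abs_of_nonneg (w_nonneg k h)]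
  exact w_le k h

lemma measurable_w (k : ℕ) (t : ℝ) : Measurable (w k t) :=
  ((continuous_w k).comp (Continuous.prodMk_right t)).measurable

lemma good_w (k : ℕ) (t : ℝ≥0) : Good (w k t) := ⟨measurable_w k t, _, abs_w_le k t⟩

lemma sum_w_le (n : ℕ) {t s r : ℝ} (h : 0 ≤ t * s) (hr : 0 ≤ r) :
    ∑ k ∈ Finset.range n, r ^ k * w k t s ≤ Real.exp (-(2 - r) * (t * s)) := by
  have h1 := Real.sum_le_exp_of_nonneg (x := r * (t * s)) (by positivity) n
  calc ∑ k ∈ Finset.range n, r ^ k * w k t s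
      = Real.exp (-2 * (t * s)) * ∑ k ∈ Finset.range n, (r * (t * s)) ^ k / k.factorial := by
        rw [Finset.mul_sum]
        refine Finset.sum_congr rfl fun k _ => ?_
        unfold w
        rw [mul_pow r]
        ring
    _ ≤ Real.exp (-2 * (t * s)) * Real.exp (r * (t * s)) :=
        mul_le_mul_of_nonneg_left h1 (Real.exp_pos _).le
    _ = _ := by rw [← Real.exp_add]; congr 1; ring

lemma w_conv (k : ℕ) (t u s : ℝ) :
    ∑ ij ∈ Finset.HasAntidiagonal.antidiagonal k, w ij.1 t s * w ij.2 u s = w k (t + u) s := by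
  unfold w
  rw [add_mul, (Commute.all (t * s) (u * s)).add_pow', Finset.mul_sum, Finset.sum_div]
  refine Finset.sum_congr rfl fun ij hij => ?_
  rw [Finset.HasAntidiagonal.mem_antidiagonal] at hij
  subst hij
  rw [mul_add, Real.exp_add, nsmul_eq_mul, Nat.cast_add_choose]
  field_simp

/-- the terms of the series -/
noncomputable def term (p : ℝ≥0∞) [Fact (1 ≤ p)] (t : ℝ≥0) (k : ℕ) : Lp ℂ p μ →L[ℂ] Lp ℂ p μ :=
  M μ p (w k t) * P μ p ^ k

lemma norm_P_pow_le {K : ℝ} (h : ‖P μ p‖ ≤ K) (k : ℕ) : ‖P μ p ^ k‖ ≤ K ^ k := by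
  induction k with
  | zero => rw [pow_zero, pow_zero]; exact ContinuousLinearMap.norm_id_le
  | succ k ih =>
    rw [pow_succ, pow_succ]
    exact (norm_mul_le _ _).trans (mul_le_mul ih h (norm_nonneg _) ((norm_nonneg _).trans ih))

lemma norm_term_le (t : ℝ≥0) (k : ℕ) : ‖term μ p t k‖ ≤ (th E / 2) ^ k := by
  refine (norm_mul_le _ _).trans ?_
  rw [div_eq_mul_one_div, mul_pow, mul_comm (th E ^ k)]
  exact mul_le_mul (norm_M_le μ (measurable_w k t) (abs_w_le k t))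
    (norm_P_pow_le μ (norm_P_le μ) k) (norm_nonneg _) (by positivity)

omit [FiniteDimensional ℝ E] [MeasurableSpace E] [BorelSpace E] in
lemma summable_th : Summable fun k : ℕ => (th E / 2) ^ k :=
  summable_geometric_of_lt_one (by have := th_nonneg E; positivity) (by linarith [th_lt E])

lemma summable_norm_term (t : ℝ≥0) : Summable fun k => ‖term μ p t k‖ :=
  Summable.of_nonneg_of_le (fun _ => norm_nonneg _) (norm_term_le μ t) summable_th

/-- the semigroup -/
noncomputable def U (p : ℝ≥0∞) [Fact (1 ≤ p)] (t : ℝ≥0) : Lp ℂ p μ →L[ℂ] Lp ℂ p μ :=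
  ∑' k, term μ p t k

lemma hasSum_U (t : ℝ≥0) : HasSum (term μ p t) (U μ p t) :=
  (summable_norm_term μ t).of_norm.hasSum

lemma hasSum_U_apply (t : ℝ≥0) (f : Lp ℂ p μ) :
    HasSum (fun k => term μ p t k f) (U μ p t f) :=
  (hasSum_U μ t).mapL (ContinuousLinearMap.apply ℂ (Lp ℂ p μ) f)

lemma coe_partial (t : ℝ≥0) (f : Lp ℂ p μ) (n : ℕ) :
    (∑ k ∈ Finset.range n, term μ p t k f : Lp ℂ p μ) =ᵐ[μ]
      fun x => ∑ k ∈ Finset.range n, (w k t (c x) : ℂ) * (P μ p ^ k) f x := by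
  induction n with
  | zero => simp only [Finset.range_zero, Finset.sum_empty]; exact Lp.coeFn_zero ℂ p μ
  | succ n ih =>
    rw [Finset.sum_range_succ]
    filter_upwards [ih, Lp.coeFn_add (∑ k ∈ Finset.range n, term μ p t k f) (term μ p t n f),
      coe_M μ (good_w n t) ((P μ p ^ n) f)] with x h1 h2 h3
    rw [h2, Pi.add_apply, h1, Finset.sum_range_succ]
    exact congrArg _ h3

lemma U_zero : U μ p 0 = 1 := by
  unfold U
  rw [tsum_eq_single 0]
  · have : w 0 (0 : ℝ≥0) = fun _ => 1 := by ext s; simp [w]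
    simp only [term, pow_zero, mul_one]
    rw [this, M_const]
    simp
  · intro k hk
    have : w k (0 : ℝ≥0) = fun _ => 0 := by ext s; simp [w, hk]
    simp only [term]
    rw [this, M_const]
    simp

omit [NormedSpace ℝ E] [FiniteDimensional ℝ E] [μ.IsAddHaarMeasure] in
lemma M_sum {ι : Type} (S : Finset ι) {g : ι → ℝ → ℝ} (hg : ∀ i, Good (g i)) :
    Good (fun s => ∑ i ∈ S, g i s) ∧ ∑ i ∈ S, M μ p (g i) = M μ p fun s => ∑ i ∈ S, g i s := by
  classical
  induction S using Finset.induction_on with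
  | empty => exact ⟨by simpa using good_const 0, by simp [M_const]⟩
  | insert a S ha ih =>
    simp only [Finset.sum_insert ha]
    exact ⟨(hg a).add ih.1, by rw [ih.2, M_add μ (hg a) ih.1]⟩

lemma U_add (s t : ℝ≥0) : U μ p (s + t) = U μ p s * U μ p t := by
  unfold U
  rw [tsum_mul_tsum_eq_tsum_sum_antidiagonal_of_summable_norm (summable_norm_term μ s)
    (summable_norm_term μ t)]
  refine tsum_congr fun k => ?_
  have e : ∀ ij ∈ Finset.HasAntidiagonal.antidiagonal k, term μ p s ij.1 * term μ p t ij.2 =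
      M μ p (fun r => w ij.1 s r * w ij.2 t r) * P μ p ^ k := by
    intro ij hij
    rw [Finset.HasAntidiagonal.mem_antidiagonal] at hij
    rw [← hij, ← M_mul μ (good_w _ _) (good_w _ _), term, term, mul_assoc, mul_assoc,
      ← mul_assoc (P μ p ^ ij.1), ((P_M_comm μ (good_w ij.2 t)).pow_left ij.1).eq, mul_assoc,
      pow_add]
  rw [Finset.sum_congr rfl e, ← Finset.sum_mul,
    (M_sum μ _ fun ij : ℕ × ℕ => (good_w ij.1 s).mul (good_w ij.2 t)).2, term]
  simp only [w_conv, NNReal.coe_add]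

lemma U_consistent {q : ℝ≥0∞} [Fact (1 ≤ q)] (t : ℝ≥0) {f : Lp ℂ p μ} {g : Lp ℂ q μ}
    (h : f =ᵐ[μ] g) : U μ p t f =ᵐ[μ] U μ q t g := by
  refine ae_eq_of_tendsto (hasSum_U_apply μ t f).tendsto_sum_nat
    (hasSum_U_apply μ t g).tendsto_sum_nat fun n => ?_
  filter_upwards [coe_partial μ t f n, coe_partial μ t g n, ae_all_iff.2 (P_pow_congr μ h)]
    with x h1 h2 h3
  rw [h1, h2]
  simp only [h3]

lemma U_pos (t : ℝ≥0) {f : Lp ℂ p μ} (h : ∀ᵐ x ∂μ, f x ∈ cone) :
    ∀ᵐ x ∂μ, U μ p t f x ∈ cone := by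
  refine ae_mem_of_tendsto (hasSum_U_apply μ t f).tendsto_sum_nat isClosed_cone fun n => ?_
  filter_upwards [coe_partial μ t f n, ae_all_iff.2 (P_pow_pos μ h)] with x h1 h2
  rw [h1]
  refine Finset.sum_induction _ (· ∈ cone) (fun _ _ => cone_add) ⟨le_rfl, rfl⟩ fun k _ => ?_
  exact cone_mul (w_nonneg k (mul_nonneg t.2 (by linarith [one_le_c x]))) (h2 k)

lemma U_selfAdjoint (t : ℝ≥0) : IsSelfAdjoint (U μ 2 t) := by
  unfold U IsSelfAdjoint
  rw [tsum_star]
  refine tsum_congr fun k => ?_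
  exact ((M_selfAdjoint μ (good_w k t)).commute_iff ((P_selfAdjoint μ).pow k)).1
    ((P_M_comm μ (good_w k t)).pow_left k).symm

lemma U_continuous (hp : p ≠ ∞) (f : Lp ℂ p μ) : Continuous fun t => U μ p t f := by
  have e : (fun t => U μ p t f) = fun t => ∑' k, term μ p t k f :=
    funext fun t => (hasSum_U_apply μ t f).tsum_eq.symm
  rw [e]
  refine continuous_tsum (u := fun k => (th E / 2) ^ k * ‖f‖) (fun k => ?_)
    (summable_th.mul_right _) fun k t => ?_
  · refine continuous_iff_continuousAt.2 fun t0 => ?_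
    refine M_tendsto μ hp (fun t : ℝ≥0 => measurable_w k t) (measurable_w k t0) ((1 / 2) ^ k)
      (Eventually.of_forall fun t => abs_w_le k t) (abs_w_le k t0) (fun s _ => ?_) _
    exact (((continuous_w k).comp (Continuous.prodMk_left s)).comp
      NNReal.continuous_coe).continuousAt
  · exact ((term μ p t k).le_opNorm f).trans
      (mul_le_mul_of_nonneg_right (norm_term_le μ t k) (norm_nonneg _))

omit [NormedSpace ℝ E] [FiniteDimensional ℝ E] [MeasurableSpace E] [BorelSpace E] in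
lemma sum_w_le_one (n : ℕ) (t : ℝ≥0) (x : E) : ∑ k ∈ Finset.range n, w k t (c x) ≤ 1 := by
  have h : 0 ≤ (t : ℝ) * c x := mul_nonneg t.2 (by linarith [one_le_c x])
  have := sum_w_le n h zero_le_one
  simp only [one_pow, one_mul] at this
  exact this.trans (Real.exp_le_one_iff.2 (by linarith))

lemma norm_U_one (t : ℝ≥0) : ‖U μ 1 t‖ ≤ 1 := by
  refine ContinuousLinearMap.opNorm_le_bound _ zero_le_one fun f => ?_
  rw [one_mul]
  refine le_of_tendsto' (hasSum_U_apply μ t f).tendsto_sum_nat.norm fun n => ?_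
  have hw : ∀ k x, 0 ≤ w k t (c x : ℝ) := fun k (x : E) =>
    w_nonneg k (mul_nonneg t.2 (by linarith [one_le_c x]))
  have e : ∀ k, (fun x => ‖M μ 1 (w k t) f x‖) =ᵐ[μ] fun x => w k t (c x) * ‖f x‖ := fun k =>
    (coe_M μ (good_w k t) f).mono fun x hx => by
      simp only [hx, norm_mul, Complex.norm_real, Real.norm_of_nonneg (hw k x)]
  have hi : ∀ k, Integrable (fun x => w k t (c x) * ‖f x‖) μ := fun k =>
    (L1.integrable_coeFn _).norm.congr (e k)
  have b : ∀ k, ‖term μ 1 t k f‖ ≤ ∫ x, w k t (c x) * ‖f x‖ ∂μ := by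
    intro k
    rw [term, ← ((P_M_comm μ (good_w k t)).pow_left k).eq, mul_apply_eq_comp,
      ← integral_congr_ae (e k), ← L1.norm_eq_integral_norm]
    refine ((P μ 1 ^ k).le_opNorm _).trans (mul_le_of_le_one_left (norm_nonneg _) ?_)
    simpa using norm_P_pow_le μ (norm_P_one μ) k
  refine (norm_sum_le _ _).trans ((Finset.sum_le_sum fun k _ => b k).trans ?_)
  rw [← integral_finsetSum _ fun k _ => hi k, L1.norm_eq_integral_norm]
  refine integral_mono (integrable_finsetSum _ fun k _ => hi k) (L1.integrable_coeFn _).norm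
    fun x => ?_
  simp only [← Finset.sum_mul]
  exact mul_le_of_le_one_left (norm_nonneg _) (sum_w_le_one n t x)

lemma norm_U_top (t : ℝ≥0) : ‖U μ ∞ t‖ ≤ 1 := by
  refine ContinuousLinearMap.opNorm_le_bound _ zero_le_one fun f => ?_
  rw [one_mul]
  refine le_of_tendsto' (hasSum_U_apply μ t f).tendsto_sum_nat.norm fun n => ?_
  have hb : ∀ k, ∀ᵐ x ∂μ, ‖(P μ ∞ ^ k) f x‖ ≤ ‖f‖ := by
    intro k
    have h1 : ‖(P μ ∞ ^ k) f‖ ≤ ‖f‖ := by
      refine ((P μ ∞ ^ k).le_opNorm _).trans (mul_le_of_le_one_left (norm_nonneg _) ?_)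
      simpa using norm_P_pow_le μ (norm_P_top μ) k
    filter_upwards [ae_le_eLpNormEssSup (f := (P μ ∞ ^ k) f) (μ := μ)] with x hx
    rw [← eLpNorm_exponent_top, ← Lp.enorm_def, ← ofReal_norm, ← ofReal_norm,
      ENNReal.ofReal_le_ofReal_iff (norm_nonneg _)] at hx
    exact hx.trans h1
  rw [Lp.norm_def, eLpNorm_exponent_top]
  refine ENNReal.toReal_le_of_le_ofReal (norm_nonneg _) (eLpNormEssSup_le_of_ae_bound ?_)
  filter_upwards [coe_partial μ t f n, ae_all_iff.2 hb] with x h1 h2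
  rw [h1]
  have hw : ∀ k, 0 ≤ w k t (c x : ℝ) := fun k =>
    w_nonneg k (mul_nonneg t.2 (by linarith [one_le_c x]))
  calc _ ≤ ∑ k ∈ Finset.range n, w k t (c x) * ‖f‖ := by
        refine (norm_sum_le _ _).trans (Finset.sum_le_sum fun k _ => ?_)
        rw [norm_mul, Complex.norm_real, Real.norm_of_nonneg (hw k)]
        exact mul_le_mul_of_nonneg_left (h2 k) (hw k)
    _ ≤ ‖f‖ := by
        rw [← Finset.sum_mul]
        exact mul_le_of_le_one_left (norm_nonneg _) (sum_w_le_one n t x)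

/-- the semigroup as a family -/
noncomputable def S : Family μ := fun p _ t => U μ p t

theorem isSymmSubMarkov_S : IsSymmSubMarkov (S μ) := by
  refine ⟨fun _ _ _ _ t _ _ h => U_consistent μ t h, fun _ _ t _ h => U_pos μ t h,
    fun p _ f => ⟨?_, fun s t => ?_⟩, fun t f => ?_, fun t f => ?_,
    fun _ _ hp f => U_continuous μ hp f, fun t f g => ?_⟩
  · change U μ p 0 f = f
    rw [U_zero]
    rfl
  · change U μ p (s + t) f = U μ p s (U μ p t f)
    rw [U_add]
    rfl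
  · exact ((U μ 1 t).le_opNorm f).trans (mul_le_of_le_one_left (norm_nonneg _) (norm_U_one μ t))
  · exact ((U μ ∞ t).le_opNorm f).trans (mul_le_of_le_one_left (norm_nonneg _) (norm_U_top μ t))
  · exact ContinuousLinearMap.isSelfAdjoint_iff_isSymmetric.1 (U_selfAdjoint μ t) f g

end Pool.Agent.Lib.MP_62a15f_an
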